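import Pool.Agent.Lib.MP_021685_agC2.WZF

set_option autoImplicit false

open MP_021685_agC2

/-- Let `q > 1` and let `W` be a finite set of `q`-Weil numbers of positive weights. There is a
finite set `V` of `q`-Weil numbers of weight one such that the following holds.

Let `F` be an endomorphism of a complex vector space `H` spanned by eigenvectors of `F`, such that
all the numbers in `V` are eigenvalues of `F` (for instance `H` is a sum of cohomology groups of
varieties over `𝔽_q` with semisimple Frobenius endomorphism `F`, one of them an abelian variety `B`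
with the eigenvalues in `V`). Then

* there is a tensor `Γ` in `H ⊗ H ⊗ H ⊗ H_s`, where `H_s` is the eigenspace for `s = √q`, with
  `(F ⊗ F ⊗ F ⊗ F) Γ = q² Γ`, which is full: it has a nonzero component for all eigenvalues `a`,
  `b`, `c` in `V` and `s` such that `a b c s = q²` and `c` is `N`-near to `s` (`N` as large as we
  want), a Tate class of codimension `2` on `B³ × E`, `E` a supersingular elliptic curve;
* let `C` be a family of subspaces `C n` of `H ⊗ ⋯ ⊗ H`, `n` factors, which is stable under tensor
  products, permutations of the factors and contractions with the Tate forms on `H ⊗ H` (for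
  instance the span of the classes of algebraic cycles). Suppose that `C` contains the tensors of
  two eigenvectors with eigenvalues `a, b ∈ V` such that `a b = q` (the Tate classes of codimension
  one on `B × B`), ONE full tensor `Γ`, and the tensors of `1 + w` eigenvectors with eigenvalues
  `a ∈ W` of weight `w` and `w` times `c ∈ V`, such that `a c ^ w = q ^ w`. Then `C` contains all
  the Tate tensors over `W`: every `t` in the `n`-th tensor power of the sum of the eigenspaces for
  the eigenvalues in `W` with `(F ⊗ ⋯ ⊗ F) t = q ^ d t` is in `C n`. -/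
theorem Pool.Agent.Results.MP_021685_ag.TwoFactors.result {q : ℕ} (hq : 1 < q) (N : ℕ)
    (W : Finset ℂ) (hW : ∀ a ∈ W, ∃ w, 0 < w ∧ IsWeilOf q w a) :
    ∃ V : Finset ℂ, (∀ c ∈ V, IsWeilOf q 1 c) ∧
      ∀ (H : Type*) [AddCommGroup H] [Module ℂ H] (F : Module.End ℂ H),
        (⨆ a, F.eigenspace a = ⊤) → (∀ c ∈ V, F.HasEigenvalue c) →
        (∃ Γ : TP H 4, frob F 4 Γ = (q : ℂ) ^ 2 • Γ ∧ LastSupersingular F q Γ ∧
          IsFull F q N V Γ) ∧
        ∀ C : ∀ n : ℕ, Submodule ℂ (TP H n), IsStable F q C → HasPairs F q V C →
          (∃ Γ ∈ C 4, IsFull F q N V Γ) → HasLinks F q W V C →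
          ∀ n d : ℕ, ∀ t ∈ Over F W n, frob F n t = (q : ℂ) ^ d • t → t ∈ C n :=
  final_one hq N W hW
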