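import Pool.Agent.Lib.MP_021685_agC2.WDefs

set_option autoImplicit false

/-! Closure properties of Weil numbers. -/

open Polynomial IntermediateField

namespace MP_021685_agC2

/-- `a` is a `q`-Weil number: an algebraic integer all of whose conjugates have absolute value
`√q`. -/
def IsWeil (q : ℕ) (a : ℂ) : Prop :=
  IsIntegral ℤ a ∧ ∀ z : ℂ, Polynomial.aeval z (minpoly ℚ a) = 0 → ‖z‖ ^ 2 = q

/-- A Tate multiset in weight one. -/
def IsTateOne (q : ℕ) (x : Multiset ℂ) : Prop :=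
  (∀ a ∈ x, IsWeil q a) ∧ ∃ d : ℕ, x.card = 2 * d ∧ x.prod = (q : ℂ) ^ d

/-- The Tate multisets `{a, b}` and `{a, b, c, s}`, `s = √q` and `c` near to `s`. -/
def IsBasicOne (q N : ℕ) (x : Multiset ℂ) : Prop :=
  IsTateOne q x ∧ ((∃ a b, x = {a, b}) ∨ ∃ a b c, IsNear q N c ∧ x = {a, b, c, rt q})

theorem isWeilOf_one {q : ℕ} {a : ℂ} : IsWeilOf q 1 a ↔ IsWeil q a := by
  simp [IsWeilOf, IsWeil]

theorem IsWeil.integral {q : ℕ} {a : ℂ} (h : IsWeil q a) : IsIntegral ℚ a :=
  h.1.tower_top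

/-- Conjugates through a common number field. -/
theorem exists_emb (T : Finset ℂ) (hT : ∀ a ∈ T, IsIntegral ℚ a) {c : ℂ} (hc : c ∈ T) {z : ℂ}
    (hz : aeval z (minpoly ℚ c) = 0) :
    ∃ f : ℂ → ℂ, f c = z ∧ (∀ a ∈ T, aeval (f a) (minpoly ℚ a) = 0) ∧
      ∀ (L : Multiset ℂ) (n : ℕ), (∀ a ∈ L, a ∈ T) → ∀ b ∈ T, b ^ n = L.prod →
        f b ^ n = (L.map f).prod := by
  classical
  have hfd : FiniteDimensional ℚ (adjoin ℚ (T : Set ℂ)) :=
    finiteDimensional_adjoin (fun x hx => hT x hx)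
  have : NumberField (adjoin ℚ (T : Set ℂ)) := ⟨⟩
  have hmem : ∀ a ∈ T, a ∈ adjoin ℚ (T : Set ℂ) := fun a ha => subset_adjoin ℚ _ ha
  set K := adjoin ℚ (T : Set ℂ) with hK
  have hmin : ∀ x : K, minpoly ℚ x = minpoly ℚ (x : ℂ) := fun x =>
    (minpoly.algebraMap_eq (algebraMap K ℂ).injective x).symm
  have hr := NumberField.Embeddings.range_eval_eq_rootSet_minpoly K ℂ ⟨c, hmem c hc⟩
  have hzr : z ∈ (minpoly ℚ (⟨c, hmem c hc⟩ : K)).rootSet ℂ := by
    rw [mem_rootSet]
    refine ⟨minpoly.ne_zero (Algebra.IsIntegral.isIntegral _), ?_⟩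
    rw [hmin]; exact hz
  rw [← hr] at hzr
  obtain ⟨φ, hφ⟩ := hzr
  refine ⟨fun a => if h : a ∈ K then φ ⟨a, h⟩ else 0, ?_, ?_, ?_⟩
  · simp only [hmem c hc, dif_pos]; exact hφ
  · intro a ha
    simp only [hmem a ha, dif_pos]
    have := NumberField.Embeddings.range_eval_eq_rootSet_minpoly K ℂ ⟨a, hmem a ha⟩
    have h2 : φ ⟨a, hmem a ha⟩ ∈ (minpoly ℚ (⟨a, hmem a ha⟩ : K)).rootSet ℂ := by
      rw [← this]; exact ⟨φ, rfl⟩
    rw [mem_rootSet] at h2
    rw [← hmin ⟨a, hmem a ha⟩]; exact h2.2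
  · intro L n hL b hb hbn
    have key : ∀ L : Multiset ℂ, (∀ a ∈ L, a ∈ T) → ∃ h : L.prod ∈ K,
        φ ⟨L.prod, h⟩ = (L.map (fun a => if h : a ∈ K then φ ⟨a, h⟩ else 0)).prod := by
      intro L
      induction L using Multiset.induction with
      | empty => intro _; exact ⟨by simpa using K.one_mem, by
          simp only [Multiset.map_zero, Multiset.prod_zero]
          exact map_one φ⟩
      | cons a L ih =>
        intro h
        obtain ⟨h1, h2⟩ := ih (fun x hx => h x (Multiset.mem_cons_of_mem hx))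
        have ha : a ∈ K := hmem a (h a (Multiset.mem_cons_self a L))
        refine ⟨by rw [Multiset.prod_cons]; exact K.mul_mem ha h1, ?_⟩
        simp only [Multiset.map_cons, Multiset.prod_cons, ← h2, ha, dif_pos, ← map_mul]
        rfl
    obtain ⟨h1, h2⟩ := key L hL
    rw [← h2]
    simp only [hmem b hb, dif_pos, ← map_pow]
    congr 1
    exact Subtype.ext hbn

/-- If `c ^ N` is a product of `N` Weil numbers then `c` is a Weil number. -/
theorem isWeil_of_pow {q : ℕ} {c : ℂ} {N : ℕ} (hN : 0 < N) (L : Multiset ℂ)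
    (hL : ∀ a ∈ L, IsWeil q a) (hcard : L.card = N) (hc : c ^ N = L.prod) : IsWeil q c := by
  classical
  have hint : IsIntegral ℤ c := by
    have h1 : IsIntegral ℤ (c ^ N) := by
      rw [hc]
      clear hc hcard
      induction L using Multiset.induction with
      | empty => simpa using isIntegral_one
      | cons a L ih =>
        rw [Multiset.prod_cons]
        exact (hL a (Multiset.mem_cons_self a L)).1.mul
          (ih (fun x hx => hL x (Multiset.mem_cons_of_mem hx)))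
    exact IsIntegral.of_pow hN h1
  refine ⟨hint, fun z hz => ?_⟩
  obtain ⟨f, hf1, hf2, hf3⟩ := exists_emb (insert c L.toFinset) (by
    intro a ha
    rcases Finset.mem_insert.1 ha with rfl | ha
    · exact hint.tower_top
    · exact (hL a (Multiset.mem_toFinset.1 ha)).integral) (Finset.mem_insert_self _ _) hz
  have h3 := hf3 L N (fun a ha => Finset.mem_insert_of_mem (Multiset.mem_toFinset.2 ha)) c
    (Finset.mem_insert_self _ _) hc
  rw [hf1] at h3
  have h4 : ∀ M : Multiset ℂ, (∀ a ∈ M, a ∈ L) →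
      ‖(M.map f).prod‖ ^ 2 = (q : ℝ) ^ M.card := by
    intro M
    induction M using Multiset.induction with
    | empty => intro _; simp
    | cons a M ih =>
      intro h
      have ha := h a (Multiset.mem_cons_self a M)
      have h5 := (hL a ha).2 (f a) (hf2 a (Finset.mem_insert_of_mem (Multiset.mem_toFinset.2 ha)))
      rw [Multiset.map_cons, Multiset.prod_cons, norm_mul, mul_pow, h5,
        ih (fun x hx => h x (Multiset.mem_cons_of_mem hx)), Multiset.card_cons, pow_succ, mul_comm]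
  have h6 := h4 L (fun a ha => ha)
  rw [← h3, norm_pow, hcard, ← pow_mul, mul_comm N 2, pow_mul] at h6
  exact (pow_left_inj₀ (by positivity) (by positivity) hN.ne').1 h6

theorem isWeil_sqrt {q : ℕ} {s : ℂ} (hs : s ^ 2 = q) : IsWeil q s := by
  refine ⟨?_, fun z hz => ?_⟩
  · refine IsIntegral.of_pow two_pos ?_
    rw [hs]
    exact isIntegral_algebraMap (R := ℤ) (A := ℂ) (x := (q : ℤ)) |> fun h => by simpa using h
  · have hdvd : minpoly ℚ s ∣ (X ^ 2 - C (q : ℚ)) := by
      refine minpoly.dvd ℚ s ?_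
      simp [hs]
    obtain ⟨r, hr⟩ := hdvd
    have h1 : aeval z (X ^ 2 - C (q : ℚ)) = 0 := by
      rw [hr, map_mul, hz, zero_mul]
    have h2 : z ^ 2 = q := by
      simpa [sub_eq_zero] using h1
    rw [← norm_pow, h2]
    simp

theorem rt_sq (q : ℕ) : rt q ^ 2 = q := by
  rw [rt, ← Complex.ofReal_pow, Real.sq_sqrt (Nat.cast_nonneg q)]
  simp

theorem isWeil_rt (q : ℕ) : IsWeil q (rt q) := isWeil_sqrt (rt_sq q)

theorem IsWeil.norm_sq {q : ℕ} {a : ℂ} (h : IsWeil q a) : ‖a‖ ^ 2 = q :=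
  h.2 a (minpoly.aeval ℚ a)

theorem IsWeil.ne_zero {q : ℕ} (hq : 0 < q) {a : ℂ} (h : IsWeil q a) : a ≠ 0 := by
  rintro rfl
  have h1 := h.norm_sq
  rw [norm_zero, zero_pow two_ne_zero] at h1
  exact hq.ne' (by exact_mod_cast h1.symm)

/-- The complex conjugate of a Weil number `a` is the Weil number `q / a`. -/
theorem IsWeil.div {q : ℕ} (hq : 0 < q) {a : ℂ} (h : IsWeil q a) : IsWeil q (q / a) := by
  have h0 := h.ne_zero hq
  have h1 : (q : ℂ) / a = (starRingEnd ℂ) a := by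
    rw [div_eq_iff h0, mul_comm, Complex.mul_conj, Complex.normSq_eq_norm_sq, h.norm_sq]
    simp
  rw [h1]
  have hm : minpoly ℚ ((starRingEnd ℂ) a) = minpoly ℚ a := by
    have := minpoly.algEquiv_eq (Complex.conjAe.restrictScalars ℚ) a
    simpa using this
  refine ⟨?_, fun z hz => h.2 z (by rw [← hm]; exact hz)⟩
  exact h.1.map ((starRingEnd ℂ).toIntAlgHom)

end MP_021685_agC2
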