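import Pool.Agent.Lib.MP_021685_agC2.WA

set_option autoImplicit false

/-! Every Tate multiset in weight one is generated by the basic ones. -/

namespace MP_021685_agC2

/-- The class of a multiset in the free abelian group. -/
noncomputable def cls (x : Multiset ℂ) : ℂ →₀ ℤ := (x.map fun a => Finsupp.single a 1).sum

theorem cls_zero : cls 0 = 0 := by simp [cls]

theorem cls_cons (a : ℂ) (x : Multiset ℂ) : cls (a ::ₘ x) = Finsupp.single a 1 + cls x := by
  simp [cls]

theorem cls_add (x y : Multiset ℂ) : cls (x + y) = cls x + cls y := by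
  simp [cls]

theorem cls_inj {x y : Multiset ℂ} (h : cls x = cls y) : x = y := by
  classical
  have key : ∀ (z : Multiset ℂ) (a : ℂ), cls z a = (z.count a : ℤ) := by
    intro z a
    induction z using Multiset.induction with
    | empty => simp [cls_zero]
    | cons b z ih =>
      rw [cls_cons, Finsupp.add_apply, ih, Multiset.count_cons, Finsupp.single_apply]
      by_cases hab : b = a
      · subst hab; simp; ring
      · have hab' : ¬ a = b := fun h => hab h.symm
        simp [hab, hab']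
  refine Multiset.ext.2 fun a => ?_
  have h1 := key x a
  rw [h, key y a] at h1
  exact_mod_cast h1.symm

/-- The subgroup of the relations generated by the basic multisets. -/
noncomputable def Rel (q N : ℕ) : AddSubgroup (ℂ →₀ ℤ) :=
  AddSubgroup.closure {v | ∃ x, IsBasicOne q N x ∧ v = cls x}

theorem exists_of_mem {q N : ℕ} {v : ℂ →₀ ℤ} (hv : v ∈ Rel q N) :
    ∃ A B : Multiset (Multiset ℂ), (∀ y ∈ A, IsBasicOne q N y) ∧ (∀ y ∈ B, IsBasicOne q N y) ∧
      v + cls A.sum = cls B.sum := by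
  induction hv using AddSubgroup.closure_induction with
  | mem v hv =>
    obtain ⟨x, hx, rfl⟩ := hv
    exact ⟨0, {x}, by simp, by simpa using hx, by simp [cls_zero]⟩
  | zero => exact ⟨0, 0, by simp, by simp, by simp [cls_zero]⟩
  | add v w _ _ hv hw =>
    obtain ⟨A, B, hA, hB, h⟩ := hv
    obtain ⟨A', B', hA', hB', h'⟩ := hw
    refine ⟨A + A', B + B', ?_, ?_, ?_⟩
    · intro y hy
      rcases Multiset.mem_add.1 hy with hy | hy
      · exact hA y hy
      · exact hA' y hy
    · intro y hy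
      rcases Multiset.mem_add.1 hy with hy | hy
      · exact hB y hy
      · exact hB' y hy
    · rw [Multiset.sum_add, Multiset.sum_add, cls_add, cls_add, ← h, ← h']
      abel
  | neg v _ hv =>
    obtain ⟨A, B, hA, hB, h⟩ := hv
    exact ⟨B, A, hB, hA, by rw [← h]; abel⟩

variable {q N : ℕ}

/-- The class of a number in the quotient. -/
noncomputable def ee (q N : ℕ) (a : ℂ) : (ℂ →₀ ℤ) ⧸ Rel q N :=
  QuotientAddGroup.mk' (Rel q N) (Finsupp.single a 1)

theorem mk_cls (x : Multiset ℂ) : QuotientAddGroup.mk' (Rel q N) (cls x) = (x.map (ee q N)).sum := by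
  induction x using Multiset.induction with
  | empty => simp [cls_zero]
  | cons a x ih => rw [cls_cons, map_add, ih, Multiset.map_cons, Multiset.sum_cons]; rfl

theorem sum_eq_zero {x : Multiset ℂ} (h : IsBasicOne q N x) : (x.map (ee q N)).sum = 0 := by
  rw [← mk_cls]
  exact (QuotientAddGroup.eq_zero_iff _).2 (AddSubgroup.subset_closure ⟨x, h, rfl⟩)

theorem ee_pair {a b : ℂ} (ha : IsWeil q a) (hb : IsWeil q b) (h : a * b = q) :
    ee q N a + ee q N b = 0 := by
  have h1 : IsBasicOne q N {a, b} := by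
    refine ⟨⟨?_, 1, by simp, by simpa using h⟩, Or.inl ⟨a, b, rfl⟩⟩
    intro c hc
    simp only [Multiset.insert_eq_cons, Multiset.mem_cons, Multiset.mem_singleton] at hc
    rcases hc with rfl | rfl
    · exact ha
    · exact hb
  simpa using sum_eq_zero h1

theorem ee_mul (hq : 0 < q) {a b c : ℂ} (ha : IsWeil q a) (hb : IsWeil q b) (hc : IsWeil q c)
    (hn : IsNear q N b) (h : a * b = c * rt q) : ee q N a + ee q N b = ee q N c + ee q N (rt q) := by
  have h0 := hc.ne_zero hq
  have hd := hc.div hq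
  have hs := isWeil_rt q
  have h1 : IsBasicOne q N {a, q / c, b, rt q} := by
    refine ⟨⟨?_, 2, by simp, ?_⟩, Or.inr ⟨a, q / c, b, hn, rfl⟩⟩
    · intro x hx
      simp only [Multiset.insert_eq_cons, Multiset.mem_cons, Multiset.mem_singleton] at hx
      rcases hx with rfl | rfl | rfl | rfl
      · exact ha
      · exact hd
      · exact hb
      · exact hs
    · simp only [Multiset.insert_eq_cons, Multiset.prod_cons, Multiset.prod_singleton]
      calc a * ((q : ℂ) / c * (b * rt q)) = (a * b) * rt q * q / c := by ring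
        _ = c * rt q ^ 2 * q / c := by rw [h]; ring
        _ = _ := by rw [rt_sq]; field_simp
  have h2 := sum_eq_zero h1
  have h3 := ee_pair (N := N) hc hd (by field_simp)
  have h4 := ee_pair (N := N) hs hs (by rw [← sq, rt_sq])
  simp only [Multiset.insert_eq_cons, Multiset.map_cons, Multiset.map_singleton,
    Multiset.sum_cons, Multiset.sum_singleton] at h2
  have h5 : ee q N a + ee q N b - (ee q N c + ee q N (rt q)) =
      (ee q N a + (ee q N (q / c) + (ee q N b + ee q N (rt q)))) -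
        (ee q N c + ee q N (q / c)) - (ee q N (rt q) + ee q N (rt q)) := by abel
  rw [h2, h3, h4, sub_zero, sub_zero] at h5
  exact sub_eq_zero.1 h5

/-- The shifted class. -/
noncomputable def ff (q N : ℕ) (a : ℂ) : (ℂ →₀ ℤ) ⧸ Rel q N := ee q N a + ee q N (rt q)

theorem ff_s : ff q N (rt q) = 0 :=
  ee_pair (isWeil_rt q) (isWeil_rt q) (by rw [← sq, rt_sq])

theorem ff_mul (hq : 0 < q) {a b c : ℂ} (ha : IsWeil q a) (hb : IsWeil q b) (hc : IsWeil q c)
    (hn : IsNear q N b) (h : a * b = c * rt q) : ff q N a + ff q N b = ff q N c := by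
  have h1 := ee_mul hq ha hb hc hn h
  have h2 : ee q N (rt q) + ee q N (rt q) = 0 := ff_s
  simp only [ff]
  calc _ = (ee q N a + ee q N b) + (ee q N (rt q) + ee q N (rt q)) := by abel
    _ = _ := by rw [h2, h1, add_zero]

theorem s_ne (hq : 0 < q) : rt q ≠ 0 := (isWeil_rt q).ne_zero hq

/-- A number `b` with `b ^ M = L.prod * s ^ (M - card L)` is a Weil number. -/
theorem isWeil_of_part {M : ℕ} (hM : 0 < M) {L : Multiset ℂ} (hL : ∀ p ∈ L, IsWeil q p)
    (hcard : L.card ≤ M) {b : ℂ} (hb : b ^ M = L.prod * rt q ^ (M - L.card)) : IsWeil q b := by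
  refine isWeil_of_pow hM (L + Multiset.replicate (M - L.card) (rt q)) ?_ ?_ ?_
  · intro a ha
    rcases Multiset.mem_add.1 ha with ha | ha
    · exact hL a ha
    · rw [Multiset.eq_of_mem_replicate ha]; exact isWeil_rt q
  · rw [Multiset.card_add, Multiset.card_replicate]; omega
  · rw [Multiset.prod_add, Multiset.prod_replicate]; exact hb

/-- The powers `r ^ j / s ^ (j - 1)` of an `M`-th root `r` are Weil numbers for `j ≤ M`. -/
theorem isWeil_power (hq : 0 < q) {M : ℕ} (hM : 0 < M) {p r : ℂ} (hp : IsWeil q p)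
    (hr : r ^ M * rt q = p * rt q ^ M) {j : ℕ} (hj : j ≤ M) :
    IsWeil q (r ^ j * rt q / rt q ^ j) := by
  have h0 := s_ne hq
  refine isWeil_of_part hM (L := Multiset.replicate j p)
    (fun a ha => by rw [Multiset.eq_of_mem_replicate ha]; exact hp) (by simpa using hj) ?_
  rw [Multiset.prod_replicate, Multiset.card_replicate, div_pow, mul_pow,
    div_eq_iff (pow_ne_zero _ (pow_ne_zero _ h0))]
  have h1 : r ^ M = p * rt q ^ (M - 1) := by
    have h2 : rt q ^ M = rt q ^ (M - 1) * rt q := by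
      rw [← pow_succ]; congr 1; omega
    rw [h2, ← mul_assoc] at hr
    exact mul_right_cancel₀ h0 hr
  have h3 : (r ^ j) ^ M = p ^ j * (rt q ^ (M - 1)) ^ j := by
    rw [← pow_mul, mul_comm j M, pow_mul, h1, mul_pow]
  rw [h3]
  have h4 : (rt q ^ (M - 1)) ^ j * rt q ^ M = rt q ^ (M - j) * (rt q ^ j) ^ M := by
    rw [← pow_mul, ← pow_mul, ← pow_add, ← pow_add]
    congr 1
    obtain ⟨t, rfl⟩ : ∃ t, M = j + t := ⟨M - j, by omega⟩
    obtain ⟨m, hm⟩ : ∃ m, j + t = m + 1 := ⟨j + t - 1, by omega⟩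
    have e1 : j + t - j = t := by omega
    rw [e1, hm]
    have e2 : m + 1 - 1 = m := by omega
    rw [e2, mul_add, mul_one, mul_comm j m]
    omega
  calc p ^ j * (rt q ^ (M - 1)) ^ j * rt q ^ M
      = p ^ j * ((rt q ^ (M - 1)) ^ j * rt q ^ M) := by ring
    _ = _ := by rw [h4]; ring

/-- `M`-near implies `N`-near for `N ≤ M`. -/
theorem isNear_of_root (hq : 0 < q) {M : ℕ} (hM : 0 < M) (hN : N ≤ M) {p r : ℂ} (hp : IsWeil q p)
    (hr : r ^ M * rt q = p * rt q ^ M) : IsNear q N r := by
  have h0 := s_ne hq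
  exact ⟨_, isWeilOf_one.2 (isWeil_power hq hM hp hr hN),
    (div_mul_cancel₀ _ (pow_ne_zero _ h0)).symm⟩

/-- The chain `b_j`, `j ≤ M`. -/
theorem ff_power (hq : 0 < q) {M : ℕ} (hM : 0 < M) (hN : N ≤ M) {p r : ℂ} (hp : IsWeil q p)
    (hr : r ^ M * rt q = p * rt q ^ M) (hw : IsWeil q r) {j : ℕ} (hj : j ≤ M) :
    ff q N (r ^ j * rt q / rt q ^ j) = j • ff q N r := by
  have h0 := s_ne hq
  induction j with
  | zero => simp [ff_s]
  | succ j ih =>
    have h1 := isWeil_power hq hM hp hr (j := j) (by omega)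
    have h2 := isWeil_power hq hM hp hr hj
    rw [succ_nsmul, ← ih (by omega)]
    refine (ff_mul hq h1 hw h2 (isNear_of_root hq hM hN hp hr) ?_).symm
    rw [pow_succ, pow_succ]
    field_simp

/-- `M`-th roots. -/
theorem exists_root (hq : 0 < q) {M : ℕ} (hM : 0 < M) (hN : N ≤ M) {p : ℂ} (hp : IsWeil q p) :
    ∃ r, IsWeil q r ∧ r ^ M * rt q = p * rt q ^ M ∧ ff q N p = M • ff q N r := by
  have h0 := s_ne hq
  obtain ⟨r, hr⟩ := IsAlgClosed.exists_pow_nat_eq (p * rt q ^ (M - 1)) (n := M) hM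
  have hw : IsWeil q r := isWeil_of_part hM (L := {p}) (by simpa using hp)
    (by rw [Multiset.card_singleton]; omega)
    (by simpa using hr)
  have hs : rt q ^ M = rt q ^ (M - 1) * rt q := by
    rw [← pow_succ]; congr 1; omega
  have h1 : r ^ M * rt q = p * rt q ^ M := by rw [hr, hs]; ring
  refine ⟨r, hw, h1, ?_⟩
  rw [← ff_power hq hM hN hp h1 hw le_rfl]
  congr 1
  rw [h1]
  field_simp

/-- Roots of unity times `s`. -/
theorem ff_unity (hq : 0 < q) {M : ℕ} (hM : 0 < M) (hN : N ≤ M) {b : ℂ}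
    (hb : b ^ M = rt q ^ M) : M • ff q N b = 0 := by
  have h0 := s_ne hq
  have hw : IsWeil q b := isWeil_of_part hM (L := 0) (by simp) (by simp) (by simpa using hb)
  have h1 : b ^ M * rt q = rt q * rt q ^ M := by rw [hb, mul_comm]
  rw [← ff_power hq hM hN (isWeil_rt q) h1 hw le_rfl, h1]
  have : rt q * rt q ^ M / rt q ^ M = rt q := by field_simp
  rw [this, ff_s]

/-- Partial products. -/
theorem exists_partial (hq : 0 < q) {M : ℕ} (hM : 0 < M) (hN : N ≤ M) (L : Multiset ℂ)
    (hL : ∀ p ∈ L, IsWeil q p) (hcard : L.card ≤ M) :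
    ∃ b, b ^ M = L.prod * rt q ^ (M - L.card) ∧ (L.map (ff q N)).sum = M • ff q N b := by
  induction L using Multiset.induction with
  | empty => exact ⟨rt q, by simp, by simp [ff_s]⟩
  | cons p L ih =>
    have h0 := s_ne hq
    have hLw : ∀ p ∈ L, IsWeil q p := fun x hx => hL x (Multiset.mem_cons_of_mem hx)
    have hp := hL p (Multiset.mem_cons_self p L)
    rw [Multiset.card_cons] at hcard
    obtain ⟨b, h1, h2⟩ := ih hLw (by omega)
    have hb := isWeil_of_part hM hLw (by omega) h1
    obtain ⟨r, hr, h3, h4⟩ := exists_root hq hM hN hp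
    have h5 : (b * r / rt q) ^ M = (p ::ₘ L).prod * rt q ^ (M - (p ::ₘ L).card) := by
      rw [div_pow, mul_pow, h1, div_eq_iff (pow_ne_zero _ h0), Multiset.prod_cons,
        Multiset.card_cons]
      have h6 : rt q ^ (M - L.card) = rt q ^ (M - (L.card + 1)) * rt q := by
        rw [← pow_succ]; congr 1; omega
      rw [h6]
      calc L.prod * (rt q ^ (M - (L.card + 1)) * rt q) * r ^ M
          = L.prod * rt q ^ (M - (L.card + 1)) * (r ^ M * rt q) := by ring
        _ = _ := by rw [h3]; ring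
    have hw := isWeil_of_part hM hL (by rw [Multiset.card_cons]; omega) h5
    refine ⟨b * r / rt q, h5, ?_⟩
    rw [Multiset.map_cons, Multiset.sum_cons, h2, h4, ← nsmul_add,
      add_comm (ff q N r), ff_mul hq hb hr hw (isNear_of_root hq hM hN hp h3) (by field_simp)]

/-- **Theorem.** Every Tate multiset of `q`-Weil numbers is generated by basic multisets. -/
theorem mainOne (hq : 0 < q) (N : ℕ) {x : Multiset ℂ} (hx : IsTateOne q x) :
    ∃ A B : Multiset (Multiset ℂ), (∀ y ∈ A, IsBasicOne q N y) ∧ (∀ y ∈ B, IsBasicOne q N y) ∧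
      x + A.sum = B.sum := by
  obtain ⟨hw, d, hcard, hprod⟩ := hx
  obtain ⟨M, hM, hN, hk⟩ : ∃ M : ℕ, 0 < M ∧ N ≤ M ∧ x.card ≤ M :=
    ⟨N + x.card + 1, by omega, by omega, by omega⟩
  obtain ⟨b, h1, h2⟩ := exists_partial hq hM hN x hw hk
  have h3 : b ^ M = rt q ^ M := by
    rw [h1, hprod, ← rt_sq q, ← pow_mul, ← pow_add, hcard]
    congr 1
    omega
  rw [ff_unity hq hM hN h3] at h2
  have h4 : (x.map (ff q N)).sum = (x.map (ee q N)).sum := by
    have : x.map (ff q N) = x.map (fun a => ee q N a + ee q N (rt q)) := rfl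
    rw [this, Multiset.sum_map_add, Multiset.map_const', Multiset.sum_replicate, hcard, mul_comm,
      mul_smul, two_smul]
    have h5 : ee q N (rt q) + ee q N (rt q) = 0 := ff_s
    rw [h5, smul_zero, add_zero]
  have h5 : cls x ∈ Rel q N := by
    rw [← QuotientAddGroup.eq_zero_iff]
    have := mk_cls (q := q) (N := N) x
    rw [← h4, h2] at this
    exact this
  obtain ⟨A, B, hA, hB, h⟩ := exists_of_mem h5
  exact ⟨A, B, hA, hB, cls_inj (by rw [cls_add]; exact h)⟩

end MP_021685_agC2
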