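import Pool.Agent.Lib.MP_021685_agC2.WB

set_option autoImplicit false

/-! Mixed weights. -/

namespace MP_021685_agC2

/-- A `w`-th root of a Weil number of weight `w` is a Weil number of weight one. -/
theorem exists_root_weight {q w : ℕ} (hw : 0 < w) {a : ℂ} (ha : IsWeilOf q w a) :
    ∃ c, IsWeil q c ∧ c ^ w = a := by
  obtain ⟨c, hc⟩ := IsAlgClosed.exists_pow_nat_eq a hw
  refine ⟨c, ⟨IsIntegral.of_pow hw (by rw [hc]; exact ha.1), fun z hz => ?_⟩, hc⟩
  have hci : IsIntegral ℚ c := (IsIntegral.of_pow hw (by rw [hc]; exact ha.1)).tower_top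
  obtain ⟨f, hf1, hf2, hf3⟩ := exists_emb {a, c} (by
    intro b hb
    rcases Finset.mem_insert.1 hb with rfl | hb
    · exact ha.1.tower_top
    · rw [Finset.mem_singleton.1 hb]; exact hci) (c := c) (by simp) hz
  have h1 := hf3 {a} w (by simp) c (by simp) (by simpa using hc)
  rw [hf1, Multiset.map_singleton, Multiset.prod_singleton] at h1
  have h2 := ha.2 (f a) (hf2 a (by simp))
  rw [← h1, norm_pow, ← pow_mul, mul_comm w 2, pow_mul] at h2
  exact (pow_left_inj₀ (by positivity) (by positivity) hw.ne').1 h2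

/-- Embedding of the multisets of weight one. -/
def emb (y : Multiset ℂ) : Multiset (ℕ × ℂ) := y.map fun a => (1, a)

theorem emb_add (y z : Multiset ℂ) : emb (y + z) = emb y + emb z := Multiset.map_add _ _ _

theorem emb_sum (A : Multiset (Multiset ℂ)) : emb A.sum = (A.map emb).sum := by
  induction A using Multiset.induction with
  | empty => simp [emb]
  | cons y A ih => rw [Multiset.sum_cons, emb_add, ih, Multiset.map_cons, Multiset.sum_cons]

theorem isTate_emb {q : ℕ} {y : Multiset ℂ} (h : IsTateOne q y) : ∃ d, IsTate q d (emb y) := by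
  obtain ⟨h1, d, h2, h3⟩ := h
  refine ⟨d, ?_, ?_, ?_⟩
  · intro p hp
    obtain ⟨a, ha, rfl⟩ := Multiset.mem_map.1 hp
    exact ⟨one_pos, isWeilOf_one.2 (h1 a ha)⟩
  · rw [emb, Multiset.map_map, ← h2]
    simp
  · rw [emb, Multiset.map_map, ← h3]
    simp

theorem isBasic_emb {q N : ℕ} {y : Multiset ℂ} (h : IsBasicOne q N y) : IsBasic q N (emb y) := by
  refine ⟨isTate_emb h.1, ?_⟩
  rcases h.2 with ⟨a, b, rfl⟩ | ⟨a, b, c, hn, rfl⟩
  · exact Or.inl ⟨a, b, by simp [emb]⟩
  · exact Or.inr ⟨a, b, c, hn, by simp [emb]⟩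

theorem pairs_sum (q : ℕ) (c : ℕ × ℂ → ℂ) (x : Multiset (ℕ × ℂ)) :
    (x.bind fun p => Multiset.replicate p.1 ({c p, (q : ℂ) / c p} : Multiset ℂ)).sum =
      (x.bind fun p => Multiset.replicate p.1 (c p)) +
        x.bind fun p => Multiset.replicate p.1 ((q : ℂ) / c p) := by
  induction x using Multiset.induction with
  | empty => simp
  | cons p x ih =>
    rw [Multiset.cons_bind, Multiset.cons_bind, Multiset.cons_bind, Multiset.sum_add, ih,
      Multiset.sum_replicate]
    have : (p.1 • ({c p, (q : ℂ) / c p} : Multiset ℂ)) =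
        Multiset.replicate p.1 (c p) + Multiset.replicate p.1 ((q : ℂ) / c p) := by
      rw [Multiset.insert_eq_cons, ← Multiset.singleton_add, nsmul_add, Multiset.nsmul_singleton,
        Multiset.nsmul_singleton]
    rw [this]
    abel

theorem links_sum (q : ℕ) (c : ℕ × ℂ → ℂ) (x : Multiset (ℕ × ℂ)) :
    (x.map fun p => p ::ₘ Multiset.replicate p.1 (1, (q : ℂ) / c p)).sum =
      x + emb (x.bind fun p => Multiset.replicate p.1 ((q : ℂ) / c p)) := by
  induction x using Multiset.induction with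
  | empty => simp [emb]
  | cons p x ih =>
    rw [Multiset.map_cons, Multiset.sum_cons, ih, Multiset.cons_bind, emb_add]
    have : emb (Multiset.replicate p.1 ((q : ℂ) / c p)) =
        Multiset.replicate p.1 (1, (q : ℂ) / c p) := by
      rw [emb, Multiset.map_replicate]
    rw [this, ← Multiset.singleton_add, ← Multiset.singleton_add p x]
    abel

/-- **Theorem.** Every Tate multiset is generated by basic Tate multisets and links. -/
theorem main {q : ℕ} (hq : 0 < q) (N : ℕ) {d : ℕ} {x : Multiset (ℕ × ℂ)} (hx : IsTate q d x) :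
    ∃ (l : ℕ × ℂ → Multiset (ℕ × ℂ)) (A B : Multiset (Multiset (ℕ × ℂ))),
      (∀ p ∈ x, IsLink q p (l p)) ∧ (∀ y ∈ A, IsBasic q N y) ∧ (∀ y ∈ B, IsBasic q N y) ∧
        x + A.sum = (x.map l).sum + B.sum := by
  classical
  obtain ⟨h1, h2, h3⟩ := hx
  have hr : ∀ p : ℕ × ℂ, ∃ c, p ∈ x → IsWeil q c ∧ c ^ p.1 = p.2 := by
    intro p
    by_cases hp : p ∈ x
    · obtain ⟨c, hc⟩ := exists_root_weight (h1 p hp).1 (h1 p hp).2
      exact ⟨c, fun _ => hc⟩
    · exact ⟨0, fun h => absurd h hp⟩
  choose c hc using hr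
  have hyT : IsTateOne q (x.bind fun p => Multiset.replicate p.1 (c p)) := by
    refine ⟨?_, d, ?_, ?_⟩
    · intro a ha
      obtain ⟨p, hp, ha⟩ := Multiset.mem_bind.1 ha
      rw [Multiset.eq_of_mem_replicate ha]
      exact (hc p hp).1
    · rw [Multiset.card_bind, ← h2]
      simp
    · rw [Multiset.prod_bind, ← h3]
      congr 1
      refine Multiset.map_congr rfl fun p hp => ?_
      rw [Multiset.prod_replicate]
      exact (hc p hp).2
  obtain ⟨A, B, hA, hB, hAB⟩ := mainOne hq N hyT
  have hPm : ∀ z ∈ x.bind fun p => Multiset.replicate p.1 ({c p, (q : ℂ) / c p} : Multiset ℂ),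
      IsBasicOne q N z := by
    intro z hz
    obtain ⟨p, hp, hz⟩ := Multiset.mem_bind.1 hz
    rw [Multiset.eq_of_mem_replicate hz]
    have hcw := (hc p hp).1
    have h0 := hcw.ne_zero hq
    refine ⟨⟨?_, 1, by simp, ?_⟩, Or.inl ⟨_, _, rfl⟩⟩
    · intro a ha
      simp only [Multiset.insert_eq_cons, Multiset.mem_cons, Multiset.mem_singleton] at ha
      rcases ha with rfl | rfl
      · exact hcw
      · exact hcw.div hq
    · simp only [Multiset.insert_eq_cons, Multiset.prod_cons, Multiset.prod_singleton]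
      field_simp
  refine ⟨fun p => p ::ₘ Multiset.replicate p.1 (1, (q : ℂ) / c p),
    (x.bind fun p => Multiset.replicate p.1 ({c p, (q : ℂ) / c p} : Multiset ℂ)).map emb +
      A.map emb, B.map emb, ?_, ?_, ?_, ?_⟩
  · intro p hp
    have hcw := (hc p hp).1
    have h0 := hcw.ne_zero hq
    refine ⟨⟨p.1, ?_, ?_, ?_⟩, _, rfl⟩
    · intro r hr
      rcases Multiset.mem_cons.1 hr with rfl | hr
      · exact h1 r hp
      · rw [Multiset.eq_of_mem_replicate hr]
        exact ⟨one_pos, isWeilOf_one.2 (hcw.div hq)⟩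
    · simp [two_mul]
    · simp only [Multiset.map_cons, Multiset.map_replicate, Multiset.prod_cons,
        Multiset.prod_replicate]
      rw [← (hc p hp).2, div_pow]
      field_simp
  · intro z hz
    rcases Multiset.mem_add.1 hz with hz | hz
    · obtain ⟨t, ht, rfl⟩ := Multiset.mem_map.1 hz
      exact isBasic_emb (hPm t ht)
    · obtain ⟨t, ht, rfl⟩ := Multiset.mem_map.1 hz
      exact isBasic_emb (hA t ht)
  · intro z hz
    obtain ⟨t, ht, rfl⟩ := Multiset.mem_map.1 hz
    exact isBasic_emb (hB t ht)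
  · rw [Multiset.sum_add, ← emb_sum, ← emb_sum, ← emb_sum, pairs_sum, links_sum, ← hAB,
      emb_add, emb_add]
    abel

end MP_021685_agC2
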