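import Mathlib

set_option autoImplicit false

/-! Weil numbers and the Tate relations between them: definitions. -/

namespace MP_021685_agC2

/-- `a` is a `q`-Weil number of weight `w`: an algebraic integer all of whose conjugates `z`
satisfy `|z| ^ 2 = q ^ w`. -/
def IsWeilOf (q w : ℕ) (a : ℂ) : Prop :=
  IsIntegral ℤ a ∧ ∀ z : ℂ, Polynomial.aeval z (minpoly ℚ a) = 0 → ‖z‖ ^ 2 = (q : ℝ) ^ w

/-- A Tate multiset of codimension `d`: pairs `(w, a)`, where `a` is a `q`-Weil number of weight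
`w > 0`, the sum of the weights is `2 d` and the product of the Weil numbers is `q ^ d`. -/
def IsTate (q d : ℕ) (x : Multiset (ℕ × ℂ)) : Prop :=
  (∀ p ∈ x, 0 < p.1 ∧ IsWeilOf q p.1 p.2) ∧ (x.map Prod.fst).sum = 2 * d ∧
    (x.map Prod.snd).prod = (q : ℂ) ^ d

/-- The positive square root of `q`, the supersingular Weil number of weight one. -/
noncomputable def rt (q : ℕ) : ℂ := ((Real.sqrt q : ℝ) : ℂ)

/-- `c` is `N`-near to the supersingular Weil number `s = √q`: `c ^ N = e s ^ (N - 1)` for a Weil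
number `e` of weight one. -/
def IsNear (q N : ℕ) (c : ℂ) : Prop :=
  ∃ e, IsWeilOf q 1 e ∧ c ^ N * rt q = e * rt q ^ N

/-- The basic Tate multisets, in weight one: `{a, b}` and `{a, b, c, s}`, where `s = √q` is fixed
and `c` is `N`-near to `s`. -/
def IsBasic (q N : ℕ) (y : Multiset (ℕ × ℂ)) : Prop :=
  (∃ d, IsTate q d y) ∧ ((∃ a b, y = {(1, a), (1, b)}) ∨
    ∃ a b c, IsNear q N c ∧ y = {(1, a), (1, b), (1, c), (1, rt q)})

/-- The links of a pair `p = (w, a)`: the Tate multisets formed by `p` and `w` copies of one Weil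
number `c` of weight one. -/
def IsLink (q : ℕ) (p : ℕ × ℂ) (y : Multiset (ℕ × ℂ)) : Prop :=
  (∃ d, IsTate q d y) ∧ ∃ c, y = p ::ₘ Multiset.replicate p.1 (1, c)

end MP_021685_agC2
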