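import Pool.Agent.Lib.MP_021685_agC2.WC

set_option autoImplicit false

/-! The effective form: for the Tate multisets over a finite set of Weil numbers, basic multisets
and links over one finite set suffice (Dickson's lemma). -/

namespace MP_021685_agC2

/-- Dickson's lemma for the multisets over a finite set. -/
theorem isPWO_over {α : Type*} (W : Finset α) : {x : Multiset α | ∀ a ∈ x, a ∈ W}.IsPWO := by
  classical
  have h1 : (Set.univ : Set (W → ℕ)).IsPWO := Set.isPWO_of_wellQuasiOrderedLE _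
  have h2 := h1.image_of_monotone (f := fun g : W → ℕ => ∑ a : W, g a • ({a.1} : Multiset α))
    (fun g h hgh => Finset.sum_le_sum fun a _ => nsmul_le_nsmul_left (Multiset.zero_le _) (hgh a))
  refine h2.mono fun x hx => ⟨fun a => x.count a.1, Set.mem_univ _, ?_⟩
  have h3 : ∑ a : W, x.count a.1 • ({a.1} : Multiset α) =
      ∑ a ∈ W, x.count a • ({a} : Multiset α) :=
    Finset.sum_coe_sort W (fun a => x.count a • ({a} : Multiset α))
  simp only
  rw [h3, ← Finset.sum_subset (s₁ := x.toFinset) (fun a ha => hx a (Multiset.mem_toFinset.1 ha))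
    (fun a _ ha => by
      rw [Multiset.count_eq_zero.2 (fun h => ha (Multiset.mem_toFinset.2 h)), zero_nsmul])]
  exact Multiset.toFinset_sum_count_nsmul_eq x

/-- A set of multisets over a finite set that is closed under differences is generated by finitely
many of its elements. -/
theorem exists_generators {α : Type*} (W : Finset α) (P : Multiset α → Prop)
    (hP : ∀ x y z, x = y + z → P x → P y → P z) :
    ∃ F : Set (Multiset α), F.Finite ∧ (∀ y ∈ F, P y ∧ ∀ a ∈ y, a ∈ W) ∧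
      ∀ x, P x → (∀ a ∈ x, a ∈ W) → ∃ C : Multiset (Multiset α), (∀ y ∈ C, y ∈ F) ∧ x = C.sum := by
  classical
  set S : Set (Multiset α) := {x | (P x ∧ x ≠ 0) ∧ ∀ a ∈ x, a ∈ W} with hS
  have hpwo : S.IsPWO := (isPWO_over W).mono fun x hx => hx.2
  have hanti : IsAntichain (· ≤ ·) {x | Minimal (· ∈ S) x} := setOfPred_minimal_antichain _
  have hfin : {x | Minimal (· ∈ S) x}.Finite := by
    refine IsAntichain.finite_of_partiallyWellOrderedOn hanti ?_
    exact hpwo.mono fun x hx => hx.prop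
  refine ⟨{x | Minimal (· ∈ S) x}, hfin, fun y hy => ⟨hy.prop.1.1, hy.prop.2⟩, ?_⟩
  intro x
  induction hn : x.card using Nat.strong_induction_on generalizing x with
  | _ n ih =>
    intro hx hxW
    by_cases h0 : x = 0
    · exact ⟨0, by simp, by simpa using h0⟩
    obtain ⟨y, hyx, hy⟩ := hpwo.exists_le_minimal (a := x) ⟨⟨hx, h0⟩, hxW⟩
    obtain ⟨z, rfl⟩ := Multiset.le_iff_exists_add.1 hyx
    have hy0 : y.card ≠ 0 := fun h => hy.prop.1.2 (Multiset.card_eq_zero.1 h)
    obtain ⟨C, hC, hz⟩ := ih z.card (by rw [← hn, Multiset.card_add]; omega) z rfl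
      (hP _ _ _ rfl hx hy.prop.1.1) (fun a ha => hxW a (Multiset.mem_add.2 (Or.inr ha)))
    refine ⟨y ::ₘ C, ?_, by rw [Multiset.sum_cons, ← hz]⟩
    intro t ht
    rcases Multiset.mem_cons.1 ht with rfl | ht
    · exact hy
    · exact hC t ht

theorem IsTateOne.sub {q : ℕ} (hq : 0 < q) {x y z : Multiset ℂ} (h : x = y + z)
    (hx : IsTateOne q x) (hy : IsTateOne q y) : IsTateOne q z := by
  subst h
  obtain ⟨h1, d, h2, h3⟩ := hx
  obtain ⟨_, e, h4, h5⟩ := hy
  have hq0 : (q : ℂ) ≠ 0 := by exact_mod_cast hq.ne'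
  rw [Multiset.card_add] at h2
  refine ⟨fun a ha => h1 a (Multiset.mem_add.2 (Or.inr ha)), d - e, by omega, ?_⟩
  rw [Multiset.prod_add, h5] at h3
  have h6 : (q : ℂ) ^ d = (q : ℂ) ^ e * (q : ℂ) ^ (d - e) := by
    rw [← pow_add]; congr 1; omega
  rw [h6] at h3
  exact mul_left_cancel₀ (pow_ne_zero _ hq0) h3

/-- The effective form of `mainOne`. -/
theorem mainOne_finite {q : ℕ} (hq : 0 < q) (N : ℕ) (W : Finset ℂ) :
    ∃ V : Finset ℂ, ∀ x : Multiset ℂ, IsTateOne q x → (∀ a ∈ x, a ∈ W) →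
      ∃ A B : Multiset (Multiset ℂ), (∀ y ∈ A, IsBasicOne q N y ∧ ∀ a ∈ y, a ∈ V) ∧
        (∀ y ∈ B, IsBasicOne q N y ∧ ∀ a ∈ y, a ∈ V) ∧ x + A.sum = B.sum := by
  classical
  obtain ⟨F, hF, hF1, hF2⟩ := exists_generators W (IsTateOne q)
    (fun x y z h hx hy => IsTateOne.sub hq h hx hy)
  have hch : ∀ y : Multiset ℂ, ∃ A B : Multiset (Multiset ℂ), y ∈ F →
      (∀ t ∈ A, IsBasicOne q N t) ∧ (∀ t ∈ B, IsBasicOne q N t) ∧ y + A.sum = B.sum := by
    intro y
    by_cases hy : y ∈ F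
    · obtain ⟨A, B, h⟩ := mainOne hq N (hF1 y hy).1
      exact ⟨A, B, fun _ => h⟩
    · exact ⟨0, 0, fun h => absurd h hy⟩
  choose A B hAB using hch
  refine ⟨hF.toFinset.biUnion fun y => ((A y).sum + (B y).sum).toFinset, ?_⟩
  intro x hx hxW
  obtain ⟨C, hC, rfl⟩ := hF2 x hx hxW
  have hmem : ∀ y ∈ C, ∀ t, t ∈ A y ∨ t ∈ B y → ∀ a ∈ t,
      a ∈ hF.toFinset.biUnion fun y => ((A y).sum + (B y).sum).toFinset := by
    intro y hy t ht a ha
    refine Finset.mem_biUnion.2 ⟨y, hF.mem_toFinset.2 (hC y hy), Multiset.mem_toFinset.2 ?_⟩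
    rcases ht with ht | ht
    · exact Multiset.mem_add.2 (Or.inl (Multiset.mem_of_le (Multiset.le_sum_of_mem ht) ha))
    · exact Multiset.mem_add.2 (Or.inr (Multiset.mem_of_le (Multiset.le_sum_of_mem ht) ha))
  refine ⟨C.bind A, C.bind B, ?_, ?_, ?_⟩
  · intro t ht
    obtain ⟨y, hy, ht⟩ := Multiset.mem_bind.1 ht
    exact ⟨(hAB y (hC y hy)).1 t ht, hmem y hy t (Or.inl ht)⟩
  · intro t ht
    obtain ⟨y, hy, ht⟩ := Multiset.mem_bind.1 ht
    exact ⟨(hAB y (hC y hy)).2.1 t ht, hmem y hy t (Or.inr ht)⟩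
  · clear hx hxW hmem
    induction C using Multiset.induction with
    | empty => simp
    | cons y C ih =>
      have h1 := (hAB y (hC y (Multiset.mem_cons_self y C))).2.2
      have h2 := ih fun t ht => hC t (Multiset.mem_cons_of_mem ht)
      rw [Multiset.cons_bind, Multiset.cons_bind, Multiset.sum_add, Multiset.sum_add,
        Multiset.sum_cons, ← h1, ← h2]
      abel

/-- **The effective form.** For every finite set `W` of pairs `(w, a)` there are one finite set `V`
and one choice `l` of links such that the Tate multisets over `W` are generated by the links of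
their elements and by basic multisets, all of them over `V`. -/
theorem main_finite {q : ℕ} (hq : 0 < q) (N : ℕ) (W : Finset (ℕ × ℂ)) :
    ∃ (V : Finset (ℕ × ℂ)) (l : ℕ × ℂ → Multiset (ℕ × ℂ)),
      ∀ (d : ℕ) (x : Multiset (ℕ × ℂ)), IsTate q d x → (∀ p ∈ x, p ∈ W) →
        ∃ A B : Multiset (Multiset (ℕ × ℂ)), (∀ p ∈ x, IsLink q p (l p) ∧ ∀ r ∈ l p, r ∈ V) ∧
          (∀ y ∈ A, IsBasic q N y ∧ ∀ r ∈ y, r ∈ V) ∧ (∀ y ∈ B, IsBasic q N y ∧ ∀ r ∈ y, r ∈ V) ∧
            x + A.sum = (x.map l).sum + B.sum := by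
  classical
  have hr : ∀ p : ℕ × ℂ, ∃ c, (0 < p.1 ∧ IsWeilOf q p.1 p.2) → IsWeil q c ∧ c ^ p.1 = p.2 := by
    intro p
    by_cases hp : 0 < p.1 ∧ IsWeilOf q p.1 p.2
    · obtain ⟨c, hc⟩ := exists_root_weight hp.1 hp.2
      exact ⟨c, fun _ => hc⟩
    · exact ⟨0, fun h => absurd h hp⟩
  choose c hc using hr
  obtain ⟨V, hV⟩ := mainOne_finite hq N (W.image c)
  refine ⟨W ∪ ((V ∪ W.image c ∪ W.image fun p => (q : ℂ) / c p).image fun a => (1, a)),
    fun p => p ::ₘ Multiset.replicate p.1 (1, (q : ℂ) / c p), ?_⟩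
  intro d x hx hxW
  obtain ⟨h1, h2, h3⟩ := hx
  have hyT : IsTateOne q (x.bind fun p => Multiset.replicate p.1 (c p)) := by
    refine ⟨?_, d, ?_, ?_⟩
    · intro a ha
      obtain ⟨p, hp, ha⟩ := Multiset.mem_bind.1 ha
      rw [Multiset.eq_of_mem_replicate ha]
      exact (hc p (h1 p hp)).1
    · rw [Multiset.card_bind, ← h2]
      simp
    · rw [Multiset.prod_bind, ← h3]
      congr 1
      refine Multiset.map_congr rfl fun p hp => ?_
      rw [Multiset.prod_replicate]
      exact (hc p (h1 p hp)).2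
  obtain ⟨A, B, hA, hB, hAB⟩ := hV _ hyT (by
    intro a ha
    obtain ⟨p, hp, ha⟩ := Multiset.mem_bind.1 ha
    rw [Multiset.eq_of_mem_replicate ha]
    exact Finset.mem_image_of_mem _ (hxW p hp))
  have hPm : ∀ z ∈ x.bind fun p => Multiset.replicate p.1 ({c p, (q : ℂ) / c p} : Multiset ℂ),
      IsBasicOne q N z ∧ ∀ a ∈ z, a ∈ V ∪ W.image c ∪ W.image fun p => (q : ℂ) / c p := by
    intro z hz
    obtain ⟨p, hp, hz⟩ := Multiset.mem_bind.1 hz
    rw [Multiset.eq_of_mem_replicate hz]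
    have hcw := (hc p (h1 p hp)).1
    have h0 := hcw.ne_zero hq
    refine ⟨⟨⟨?_, 1, by simp, ?_⟩, Or.inl ⟨_, _, rfl⟩⟩, ?_⟩
    · intro a ha
      simp only [Multiset.insert_eq_cons, Multiset.mem_cons, Multiset.mem_singleton] at ha
      rcases ha with rfl | rfl
      · exact hcw
      · exact hcw.div hq
    · simp only [Multiset.insert_eq_cons, Multiset.prod_cons, Multiset.prod_singleton]
      field_simp
    · intro a ha
      simp only [Multiset.insert_eq_cons, Multiset.mem_cons, Multiset.mem_singleton] at ha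
      rcases ha with rfl | rfl
      · exact Finset.mem_union_left _ (Finset.mem_union_right _ (Finset.mem_image_of_mem _ (hxW p hp)))
      · exact Finset.mem_union_right _
          (Finset.mem_image_of_mem (fun p : ℕ × ℂ => (q : ℂ) / c p) (hxW p hp))
  have hemb : ∀ t : Multiset ℂ, (∀ a ∈ t, a ∈ V ∪ W.image c ∪ W.image fun p => (q : ℂ) / c p) →
      ∀ r ∈ emb t, r ∈ W ∪
        ((V ∪ W.image c ∪ W.image fun p => (q : ℂ) / c p).image fun a => (1, a)) := by
    intro t ht r hr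
    obtain ⟨a, ha, rfl⟩ := Multiset.mem_map.1 hr
    exact Finset.mem_union_right _ (Finset.mem_image_of_mem (fun a : ℂ => ((1, a) : ℕ × ℂ)) (ht a ha))
  refine ⟨(x.bind fun p => Multiset.replicate p.1 ({c p, (q : ℂ) / c p} : Multiset ℂ)).map emb +
      A.map emb, B.map emb, ?_, ?_, ?_, ?_⟩
  · intro p hp
    have hcw := (hc p (h1 p hp)).1
    have h0 := hcw.ne_zero hq
    refine ⟨⟨⟨p.1, ?_, ?_, ?_⟩, _, rfl⟩, ?_⟩
    · intro r hr
      rcases Multiset.mem_cons.1 hr with rfl | hr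
      · exact h1 r hp
      · rw [Multiset.eq_of_mem_replicate hr]
        exact ⟨one_pos, isWeilOf_one.2 (hcw.div hq)⟩
    · simp [two_mul]
    · simp only [Multiset.map_cons, Multiset.map_replicate, Multiset.prod_cons,
        Multiset.prod_replicate]
      rw [← (hc p (h1 p hp)).2, div_pow]
      field_simp
    · intro r hr
      rcases Multiset.mem_cons.1 hr with rfl | hr
      · exact Finset.mem_union_left _ (hxW r hp)
      · rw [Multiset.eq_of_mem_replicate hr]
        exact Finset.mem_union_right _ (Finset.mem_image_of_mem (fun a : ℂ => ((1, a) : ℕ × ℂ))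
          (Finset.mem_union_right _
            (Finset.mem_image_of_mem (fun p : ℕ × ℂ => (q : ℂ) / c p) (hxW p hp))))
  · intro z hz
    rcases Multiset.mem_add.1 hz with hz | hz
    · obtain ⟨t, ht, rfl⟩ := Multiset.mem_map.1 hz
      exact ⟨isBasic_emb (hPm t ht).1, hemb t (hPm t ht).2⟩
    · obtain ⟨t, ht, rfl⟩ := Multiset.mem_map.1 hz
      exact ⟨isBasic_emb (hA t ht).1, hemb t fun a ha =>
        Finset.mem_union_left _ (Finset.mem_union_left _ ((hA t ht).2 a ha))⟩
  · intro z hz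
    obtain ⟨t, ht, rfl⟩ := Multiset.mem_map.1 hz
    exact ⟨isBasic_emb (hB t ht).1, hemb t fun a ha =>
      Finset.mem_union_left _ (Finset.mem_union_left _ ((hB t ht).2 a ha))⟩
  · rw [Multiset.sum_add, ← emb_sum, ← emb_sum, ← emb_sum, pairs_sum, links_sum, ← hAB,
      emb_add, emb_add]
    abel

end MP_021685_agC2
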