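import Pool.Agent.Lib.MP_021685_agC2.WTDefs

set_option autoImplicit false

/-! The same notions with `PiTensorProduct`. -/

open scoped TensorProduct

namespace MP_021685_agC2

variable {H : Type*} [AddCommGroup H] [Module ℂ H]

noncomputable def frobP (F : Module.End ℂ H) (n : ℕ) : Module.End ℂ (⨂[ℂ]^n H) :=
  PiTensorProduct.map fun _ => F

noncomputable def contrP (β : ⨂[ℂ]^2 H →ₗ[ℂ] ℂ) (n : ℕ) : ⨂[ℂ]^(2 + n) H →ₗ[ℂ] ⨂[ℂ]^n H :=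
  (TensorProduct.lift ((LinearMap.lsmul ℂ (⨂[ℂ]^n H)).comp β)).comp
    (TensorPower.mulEquiv (R := ℂ) (M := H) (n := 2) (m := n)).symm.toLinearMap

structure IsStableP (F : Module.End ℂ H) (q : ℕ) (C : ∀ n : ℕ, Submodule ℂ (⨂[ℂ]^n H)) :
    Prop where
  one_mem : C 0 = ⊤
  mul_mem : ∀ {m n : ℕ} {s : ⨂[ℂ]^m H} {t : ⨂[ℂ]^n H}, s ∈ C m → t ∈ C n →
    TensorPower.mulEquiv (s ⊗ₜ[ℂ] t) ∈ C (m + n)
  perm_mem : ∀ {n : ℕ} (σ : Equiv.Perm (Fin n)) {t : ⨂[ℂ]^n H}, t ∈ C n →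
    PiTensorProduct.reindex ℂ (fun _ => H) σ t ∈ C n
  contract_mem : ∀ {β : ⨂[ℂ]^2 H →ₗ[ℂ] ℂ}, (∀ t, β (frobP F 2 t) = q * β t) →
    ∀ {n : ℕ} {t : ⨂[ℂ]^(2 + n) H}, t ∈ C (2 + n) → contrP β n t ∈ C n

def ContainsP (F : Module.End ℂ H) (C : ∀ n : ℕ, Submodule ℂ (⨂[ℂ]^n H))
    (P : Multiset (ℕ × ℂ) → Prop) : Prop :=
  ∀ (n : ℕ) (v : Fin n → H) (p : Fin n → ℕ × ℂ), (∀ j, F (v j) = (p j).2 • v j) →
    P (Finset.univ.val.map p) → PiTensorProduct.tprod ℂ v ∈ C n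

theorem IsStable.toP {F : Module.End ℂ H} {q : ℕ} {C : ∀ n : ℕ, Submodule ℂ (TP H n)}
    (h : IsStable F q C) : IsStableP F q (C : ∀ n : ℕ, Submodule ℂ (⨂[ℂ]^n H)) where
  one_mem := h.one_mem
  mul_mem := fun hs ht => h.mul_mem hs ht
  perm_mem := fun σ _ ht => h.perm_mem σ ht
  contract_mem := fun hβ _ _ ht => h.contract_mem hβ ht

end MP_021685_agC2
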