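import Pool.Agent.Lib.MP_021685_agC2.WS
import Pool.Agent.Lib.MP_021685_agC2.WC

set_option autoImplicit false

/-! The tensor version. -/

open scoped TensorProduct

namespace MP_021685_agC2

theorem exists_equiv {α β γ : Type*} [Fintype α] [Fintype β] (f : α → γ) (g : β → γ)
    (h : Finset.univ.val.map f = Finset.univ.val.map g) : ∃ e : α ≃ β, ∀ a, g (e a) = f a := by
  classical
  have hc : ∀ c, Nonempty ({a // f a = c} ≃ {b // g b = c}) := fun c => by
    rw [← Fintype.card_eq, Fintype.card_subtype, Fintype.card_subtype]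
    have := congrArg (Multiset.count c) h
    rw [Multiset.count_map, Multiset.count_map] at this
    simpa [Finset.card, Finset.filter, eq_comm] using this
  exact ⟨Equiv.ofFiberEquiv fun c => (hc c).some, fun a => Equiv.ofFiberEquiv_map _ a⟩

variable {H : Type*} [AddCommGroup H] [Module ℂ H]

/-- All the tensors `v₁ ⊗ ⋯ ⊗ v_n` with the multiset of vectors `m` are in `C`. -/
def Pm (C : ∀ n : ℕ, Submodule ℂ (⨂[ℂ]^n H)) (m : Multiset H) : Prop :=
  ∀ (n : ℕ) (v : Fin n → H), Finset.univ.val.map v = m → PiTensorProduct.tprod ℂ v ∈ C n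

variable {F : Module.End ℂ H} {q : ℕ} {C : ∀ n : ℕ, Submodule ℂ (⨂[ℂ]^n H)}

theorem Pm.of (hC : IsStableP F q C) {n : ℕ} {v : Fin n → H}
    (h : PiTensorProduct.tprod ℂ v ∈ C n) : Pm C (Finset.univ.val.map v) := by
  intro n' v' hv
  have hn : n' = n := by
    have := congrArg Multiset.card hv
    simpa using this
  subst hn
  obtain ⟨e, he⟩ := exists_equiv v v' hv.symm
  have h1 := hC.perm_mem e h
  rw [PiTensorProduct.reindex_tprod] at h1
  have h2 : (fun i => v (e.symm i)) = v' := by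
    funext i
    rw [← he, e.apply_symm_apply]
  rw [h2] at h1
  exact h1

theorem exists_enum {T : Type*} (m : Multiset T) :
    ∃ (n : ℕ) (v : Fin n → T), Finset.univ.val.map v = m :=
  ⟨m.toList.length, m.toList.get, by rw [Fin.univ_val_map, List.ofFn_get, Multiset.coe_toList]⟩

theorem univ_append {T : Type*} {m n : ℕ} (v : Fin m → T) (w : Fin n → T) :
    Finset.univ.val.map (Fin.append v w) = Finset.univ.val.map v + Finset.univ.val.map w := by
  rw [Fin.univ_val_map, Fin.univ_val_map, Fin.univ_val_map, List.ofFn_fin_append]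
  rfl

theorem Pm.add (hC : IsStableP F q C) {m m' : Multiset H} (h : Pm C m) (h' : Pm C m') :
    Pm C (m + m') := by
  obtain ⟨n, v, rfl⟩ := exists_enum m
  obtain ⟨n', v', rfl⟩ := exists_enum m'
  have h1 := hC.mul_mem (h n v rfl) (h' n' v' rfl)
  rw [← TensorPower.gMul_def, TensorPower.tprod_mul_tprod] at h1
  rw [← univ_append]
  exact Pm.of hC h1

theorem Pm.zero (hC : IsStableP F q C) : Pm C 0 := by
  intro n v hv
  have hn : n = 0 := by
    have := congrArg Multiset.card hv
    simpa using this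
  subst hn
  rw [hC.one_mem]
  trivial

theorem contrP_tprod (β : ⨂[ℂ]^2 H →ₗ[ℂ] ℂ) {n : ℕ} (u : Fin 2 → H) (w : Fin n → H) :
    contrP β n (PiTensorProduct.tprod ℂ (Fin.append u w)) =
      β (PiTensorProduct.tprod ℂ u) • PiTensorProduct.tprod ℂ w := by
  rw [← TensorPower.tprod_mul_tprod, TensorPower.gMul_def]
  simp only [contrP, LinearMap.coe_comp, Function.comp_apply, LinearEquiv.coe_coe,
    LinearEquiv.symm_apply_apply, TensorProduct.lift.tmul, LinearMap.lsmul_apply]

theorem Pm.contract (hC : IsStableP F q C) {β : ⨂[ℂ]^2 H →ₗ[ℂ] ℂ}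
    (hβ : ∀ t, β (frobP F 2 t) = q * β t) {u v : H} (huv : β (PiTensorProduct.tprod ℂ ![u, v]) ≠ 0)
    {m : Multiset H} (h : Pm C (u ::ₘ v ::ₘ m)) : Pm C m := by
  obtain ⟨n, w, rfl⟩ := exists_enum m
  have h1 := h (2 + n) (Fin.append ![u, v] w) (by
    rw [univ_append, Fin.univ_val_map]
    simp [List.ofFn_succ])
  have h2 := hC.contract_mem hβ h1
  rw [contrP_tprod] at h2
  exact Pm.of hC (((C n).smul_mem_iff huv).1 h2)

theorem Pm.of_pairs (hC : IsStableP F q C) {P : Multiset (ℕ × ℂ) → Prop} (hP : ContainsP F C P)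
    (z : Multiset (H × (ℕ × ℂ))) (hz : ∀ r ∈ z, F r.1 = r.2.2 • r.1) (h : P (z.map Prod.snd)) :
    Pm C (z.map Prod.fst) := by
  obtain ⟨n, r, rfl⟩ := exists_enum z
  rw [Multiset.map_map] at h ⊢
  refine Pm.of hC (hP n (fun j => (r j).1) (fun j => (r j).2) (fun j => ?_) h)
  exact hz _ (Multiset.mem_map_of_mem r (Finset.mem_univ j))

end MP_021685_agC2
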