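import Pool.Agent.Lib.MP_021685_agC2.WDefs

set_option autoImplicit false

/-! Tate tensors and stable families of tensors. -/

open scoped TensorProduct

namespace MP_021685_agC2

section
variable (H : Type*) [AddCommGroup H] [Module ℂ H]

/-- The tensor power `H ⊗ ⋯ ⊗ H`, `n` factors. -/
def TP (n : ℕ) : Type _ := ⨂[ℂ]^n H

noncomputable instance instGroupTP (n : ℕ) : AddCommGroup (TP H n) :=
  (inferInstance : AddCommGroup (⨂[ℂ]^n H))

noncomputable instance instModuleTP (n : ℕ) : Module ℂ (TP H n) :=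
  (inferInstance : Module ℂ (⨂[ℂ]^n H))

end

variable {H : Type*} [AddCommGroup H] [Module ℂ H]

/-- The tensor `v₁ ⊗ ⋯ ⊗ v_n`. -/
noncomputable def tens {n : ℕ} (v : Fin n → H) : TP H n := PiTensorProduct.tprod ℂ v

/-- The endomorphism `F ⊗ ⋯ ⊗ F` of `H ⊗ ⋯ ⊗ H`. -/
noncomputable def frob (F : Module.End ℂ H) (n : ℕ) : Module.End ℂ (TP H n) :=
  PiTensorProduct.map fun _ => F

/-- The product `s ⊗ t` of two tensors, as a tensor. -/
noncomputable def mulT {m n : ℕ} (s : TP H m) (t : TP H n) : TP H (m + n) :=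
  TensorPower.mulEquiv (R := ℂ) (M := H) (n := m) (m := n) (s ⊗ₜ[ℂ] t)

/-- The permutation `σ` of the factors. -/
noncomputable def permT {n : ℕ} (σ : Equiv.Perm (Fin n)) : TP H n →ₗ[ℂ] TP H n :=
  (PiTensorProduct.reindex ℂ (fun _ => H) σ).toLinearMap

/-- The contraction of the first two factors with a linear form `β` on `H ⊗ H`:
`v₁ ⊗ ⋯ ⊗ v_(n+2)` goes to `β (v₁ ⊗ v₂)` times `v₃ ⊗ ⋯ ⊗ v_(n+2)`. -/
noncomputable def contr (β : TP H 2 →ₗ[ℂ] ℂ) (n : ℕ) : TP H (2 + n) →ₗ[ℂ] TP H n :=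
  (TensorProduct.lift ((LinearMap.lsmul ℂ (⨂[ℂ]^n H)).comp β)).comp
    (TensorPower.mulEquiv (R := ℂ) (M := H) (n := 2) (m := n)).symm.toLinearMap

/-- A family of subspaces `C n` of `H ⊗ ⋯ ⊗ H` (`n` factors) is stable if it contains the scalars
and is stable under tensor products, permutations of the factors, and contractions with the Tate
forms on `H ⊗ H`, the linear forms `β` with `β (F u ⊗ F v) = q β (u ⊗ v)`. -/
structure IsStable (F : Module.End ℂ H) (q : ℕ) (C : ∀ n : ℕ, Submodule ℂ (TP H n)) : Prop where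
  one_mem : C 0 = ⊤
  mul_mem : ∀ {m n : ℕ} {s : TP H m} {t : TP H n}, s ∈ C m → t ∈ C n → mulT s t ∈ C (m + n)
  perm_mem : ∀ {n : ℕ} (σ : Equiv.Perm (Fin n)) {t : TP H n}, t ∈ C n → permT σ t ∈ C n
  contract_mem : ∀ {β : TP H 2 →ₗ[ℂ] ℂ}, (∀ t, β (frob F 2 t) = q * β t) →
    ∀ {n : ℕ} {t : TP H (2 + n)}, t ∈ C (2 + n) → contr β n t ∈ C n

/-- The tensor power of the sum of the eigenspaces of `F` for the eigenvalues in `W`: the span of
the tensors `v₁ ⊗ ⋯ ⊗ v_n` of eigenvectors with eigenvalues in `W`. -/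
noncomputable def Over (F : Module.End ℂ H) (W : Finset ℂ) (n : ℕ) : Submodule ℂ (TP H n) :=
  Submodule.span ℂ {t | ∃ (v : Fin n → H) (a : Fin n → ℂ),
    (∀ j, a j ∈ W ∧ F (v j) = a j • v j) ∧ t = tens v}

/-- `C` contains the basic Tate tensors with eigenvalues in `V`: the tensors `t ⊗ u` of eigenvectors
with eigenvalues `a`, `b` in `V` such that `a b = q`, and the tensors `t ⊗ u ⊗ v ⊗ w` of eigenvectors
with eigenvalues `a`, `b`, `c` in `V` and `s = √q` such that `a b c s = q ^ 2` and `c` is `N`-near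
to `s`. -/
structure HasBasics (F : Module.End ℂ H) (q N : ℕ) (V : Finset ℂ)
    (C : ∀ n : ℕ, Submodule ℂ (TP H n)) : Prop where
  two : ∀ {a b : ℂ}, a ∈ V → b ∈ V → a * b = q →
    ∀ {t u : H}, F t = a • t → F u = b • u → tens ![t, u] ∈ C 2
  four : ∀ {a b c : ℂ}, a ∈ V → b ∈ V → c ∈ V → IsNear q N c → a * b * c * rt q = q ^ 2 →
    ∀ {t u v w : H}, F t = a • t → F u = b • u → F v = c • v → F w = rt q • w →
      tens ![t, u, v, w] ∈ C 4

/-- `C` contains the links between `W` and `V`: the tensors `u ⊗ v₁ ⊗ ⋯ ⊗ v_w` of eigenvectors with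
eigenvalues `a`, `c`, …, `c` such that `a` in `W` is a Weil number of weight `w`, `c` is in `V` and
`a c ^ w = q ^ w`. -/
def HasLinks (F : Module.End ℂ H) (q : ℕ) (W V : Finset ℂ)
    (C : ∀ n : ℕ, Submodule ℂ (TP H n)) : Prop :=
  ∀ (w : ℕ) (a c : ℂ), a ∈ W → IsWeilOf q w a → c ∈ V → a * c ^ w = (q : ℂ) ^ w →
    ∀ (u : H) (v : Fin w → H), F u = a • u → (∀ j, F (v j) = c • v j) →
      tens (Fin.cons u v : Fin (w + 1) → H) ∈ C (w + 1)

end MP_021685_agC2
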