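import Pool.Agent.Lib.MP_021685_agC2.WT

set_option autoImplicit false

/-! Tate forms, duals of basic multisets, decomposition into eigenvectors. -/

open scoped TensorProduct

namespace MP_021685_agC2

variable {H : Type*} [AddCommGroup H] [Module ℂ H] {F : Module.End ℂ H}

/-- A linear form which is one at an eigenvector `u` and is an eigenvector for the transpose. -/
theorem exists_functional (hF : ⨆ a, F.eigenspace a = ⊤) {a : ℂ} {u : H} (hu : u ≠ 0)
    (h : F u = a • u) : ∃ φ : H →ₗ[ℂ] ℂ, φ u ≠ 0 ∧ ∀ x, φ (F x) = a * φ x := by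
  have hmem : u ∈ F.eigenspace a := Module.End.mem_eigenspace_iff.2 h
  have hdis := (Module.End.eigenspaces_iSupIndep F) a
  have hnot : u ∉ ⨆ (b) (_ : b ≠ a), F.eigenspace b := fun h' =>
    hu ((Submodule.disjoint_def.1 hdis) u hmem h')
  obtain ⟨φ, h1, h2⟩ := Submodule.exists_le_ker_of_notMem hnot
  refine ⟨φ, h1, fun x => ?_⟩
  have hx : x ∈ F.eigenspace a ⊔ ⨆ (b) (_ : b ≠ a), F.eigenspace b := by
    rw [← iSup_split_single, hF]; trivial
  obtain ⟨y, hy, z, hz, rfl⟩ := Submodule.mem_sup.1 hx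
  have hFz : F z ∈ ⨆ (b) (_ : b ≠ a), F.eigenspace b := by
    have : (⨆ (b) (_ : b ≠ a), F.eigenspace b) ≤
        (⨆ (b) (_ : b ≠ a), F.eigenspace b).comap F := by
      refine iSup₂_le fun b hb w hw => ?_
      rw [Submodule.mem_comap, Module.End.mem_eigenspace_iff.1 hw]
      exact Submodule.smul_mem _ _ (Submodule.mem_iSup_of_mem b (Submodule.mem_iSup_of_mem hb hw))
    exact this hz
  have e1 : φ z = 0 := h2 hz
  have e2 : φ (F z) = 0 := h2 hFz
  rw [map_add, map_add, map_add, e1, e2, Module.End.mem_eigenspace_iff.1 hy, map_smul,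
    smul_eq_mul, add_zero, add_zero]

/-- Tate forms which are not zero at `u ⊗ v`. -/
theorem exists_tate_form {q : ℕ} (hF : ⨆ a, F.eigenspace a = ⊤) {a b : ℂ} {u v : H} (hu : u ≠ 0)
    (hv : v ≠ 0) (h : F u = a • u) (h' : F v = b • v) (hab : a * b = q) :
    ∃ β : ⨂[ℂ]^2 H →ₗ[ℂ] ℂ, (∀ t, β (frobP F 2 t) = q * β t) ∧
      β (PiTensorProduct.tprod ℂ ![u, v]) ≠ 0 := by
  obtain ⟨φ, h1, h2⟩ := exists_functional hF hu h
  obtain ⟨ψ, h3, h4⟩ := exists_functional hF hv h'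
  have key : ∀ w : Fin 2 → H, PiTensorProduct.lift ((MultilinearMap.mkPiAlgebra ℂ (Fin 2)
      ℂ).compLinearMap ![φ, ψ]) (PiTensorProduct.tprod ℂ w) = φ (w 0) * ψ (w 1) := by
    intro w
    rw [PiTensorProduct.lift.tprod, MultilinearMap.compLinearMap_apply,
      MultilinearMap.mkPiAlgebra_apply, Fin.prod_univ_two]
    rfl
  refine ⟨PiTensorProduct.lift ((MultilinearMap.mkPiAlgebra ℂ (Fin 2) ℂ).compLinearMap ![φ, ψ]),
    fun t => ?_, ?_⟩
  · have : (PiTensorProduct.lift ((MultilinearMap.mkPiAlgebra ℂ (Fin 2) ℂ).compLinearMap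
        ![φ, ψ])) ∘ₗ frobP F 2 = (q : ℂ) • (PiTensorProduct.lift ((MultilinearMap.mkPiAlgebra ℂ
          (Fin 2) ℂ).compLinearMap ![φ, ψ])) := by
      refine PiTensorProduct.ext (MultilinearMap.ext fun w => ?_)
      rw [LinearMap.compMultilinearMap_apply, LinearMap.compMultilinearMap_apply,
        LinearMap.comp_apply, frobP, PiTensorProduct.map_tprod, LinearMap.smul_apply, key, key,
        h2, h4, smul_eq_mul, ← hab]
      ring
    exact LinearMap.congr_fun this t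
  · rw [key]
    exact mul_ne_zero h1 h3

theorem basic_one {q N : ℕ} {y : Multiset (ℕ × ℂ)} (hy : IsBasic q N y) :
    ∀ r ∈ y, r.1 = 1 ∧ IsWeilOf q 1 r.2 := by
  obtain ⟨⟨d, h1, -, -⟩, h⟩ := hy
  have h2 : ∀ r ∈ y, r.1 = 1 := by
    rcases h with ⟨a, b, rfl⟩ | ⟨a, b, c, -, rfl⟩ <;> intro r hr <;>
      simp only [Multiset.insert_eq_cons, Multiset.mem_cons, Multiset.mem_singleton] at hr
    · rcases hr with rfl | rfl <;> rfl
    · rcases hr with rfl | rfl | rfl | rfl <;> rfl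
  intro r hr
  have h3 := h1 r hr
  rw [h2 r hr] at h3
  exact ⟨h2 r hr, h3.2⟩

theorem dual_tate {q : ℕ} (hq : 0 < q) {d : ℕ} {y : Multiset (ℕ × ℂ)} (hy : IsTate q d y)
    (h1 : ∀ r ∈ y, r.1 = 1) : IsTate q d (y.map fun r => (1, (q : ℂ) / r.2)) := by
  have hq0 : (q : ℂ) ≠ 0 := by exact_mod_cast hq.ne'
  have hcard : y.card = 2 * d := by
    rw [← hy.2.1]
    have : y.map Prod.fst = y.map fun _ => 1 := Multiset.map_congr rfl h1
    rw [this]; simp
  refine ⟨?_, ?_, ?_⟩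
  · intro r hr
    obtain ⟨s, hs, rfl⟩ := Multiset.mem_map.1 hr
    have h2 := (hy.1 s hs).2
    rw [h1 s hs] at h2
    exact ⟨one_pos, isWeilOf_one.2 ((isWeilOf_one.1 h2).div hq)⟩
  · rw [Multiset.map_map, ← hcard]
    simp
  · rw [Multiset.map_map]
    have : (y.map (Prod.snd ∘ fun r => ((1 : ℕ), (q : ℂ) / r.2))) =
        y.map fun r => (fun _ => (q : ℂ)) r / Prod.snd r := rfl
    rw [this, Multiset.prod_map_div, hy.2.2, Multiset.map_const', Multiset.prod_replicate, hcard,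
      div_eq_iff (pow_ne_zero _ hq0), two_mul, pow_add]

theorem div_rt {q : ℕ} (hq : 0 < q) : (q : ℂ) / rt q = rt q := by
  rw [div_eq_iff (s_ne hq), ← sq, rt_sq]

theorem near_div {q N : ℕ} (hq : 0 < q) {c : ℂ} (h : IsNear q N c) : IsNear q N (q / c) := by
  obtain ⟨e, he, h1⟩ := h
  have hs := s_ne hq
  have hq0 : (q : ℂ) ≠ 0 := by exact_mod_cast hq.ne'
  have he0 := (isWeilOf_one.1 he).ne_zero hq
  refine ⟨q / e, isWeilOf_one.2 ((isWeilOf_one.1 he).div hq), ?_⟩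
  have hcN : c ^ N ≠ 0 := by
    intro h0
    rw [h0, zero_mul] at h1
    exact mul_ne_zero he0 (pow_ne_zero _ hs) h1.symm
  rw [div_pow, div_mul_eq_mul_div, div_mul_eq_mul_div, div_eq_div_iff hcN he0]
  have h2 : (q : ℂ) ^ N = rt q ^ N * rt q ^ N := by
    rw [← mul_pow, ← sq, rt_sq]
  calc (q : ℂ) ^ N * rt q * e = rt q ^ N * rt q * (e * rt q ^ N) := by rw [h2]; ring
    _ = rt q ^ N * rt q * (c ^ N * rt q) := by rw [h1]
    _ = (rt q ^ 2) * rt q ^ N * c ^ N := by ring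
    _ = _ := by rw [rt_sq]

theorem dual_basic {q N : ℕ} (hq : 0 < q) {y : Multiset (ℕ × ℂ)} (hy : IsBasic q N y) :
    IsBasic q N (y.map fun r => (1, (q : ℂ) / r.2)) := by
  have h1 := basic_one hy
  obtain ⟨⟨d, h2⟩, h⟩ := hy
  refine ⟨⟨d, dual_tate hq h2 fun r hr => (h1 r hr).1⟩, ?_⟩
  rcases h with ⟨a, b, rfl⟩ | ⟨a, b, c, hc, rfl⟩
  · exact Or.inl ⟨q / a, q / b, by simp⟩
  · exact Or.inr ⟨q / a, q / b, q / c, near_div hq hc, by simp [div_rt hq]⟩

/-- A tensor which is an eigenvector of `F ⊗ ⋯ ⊗ F` is a combination of tensors of eigenvectors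
with the same product of the eigenvalues. -/
theorem mem_span_of_eigen (hF : ⨆ a, F.eigenspace a = ⊤) {n : ℕ} {t : ⨂[ℂ]^n H} {μ : ℂ}
    (ht : frobP F n t = μ • t) :
    t ∈ Submodule.span ℂ {s | ∃ (v : Fin n → H) (a : Fin n → ℂ), (∀ j, F (v j) = a j • v j) ∧
      ∏ j, a j = μ ∧ s = PiTensorProduct.tprod ℂ v} := by
  set S : ℂ → Submodule ℂ (⨂[ℂ]^n H) := fun μ => Submodule.span ℂ {s | ∃ (v : Fin n → H)
    (a : Fin n → ℂ), (∀ j, F (v j) = a j • v j) ∧ ∏ j, a j = μ ∧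
      s = PiTensorProduct.tprod ℂ v} with hS
  have h1 : ∀ μ, S μ ≤ (frobP F n).eigenspace μ := by
    intro μ
    refine Submodule.span_le.2 ?_
    rintro _ ⟨v, a, hv, rfl, rfl⟩
    rw [SetLike.mem_coe, Module.End.mem_eigenspace_iff, frobP, PiTensorProduct.map_tprod]
    have : (fun i => F (v i)) = fun i => a i • v i := funext hv
    rw [this, MultilinearMap.map_smul_univ]
  have h2 : ⨆ μ, S μ = ⊤ := by
    have hg : ∀ _ : Fin n, Submodule.span ℂ (Set.range fun r : {r : ℂ × H // F r.2 = r.1 • r.2} =>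
        r.1.2) = ⊤ := by
      intro _
      rw [eq_top_iff, ← hF]
      refine iSup_le fun a x hx => Submodule.subset_span ⟨⟨(a, x), ?_⟩, rfl⟩
      exact Module.End.mem_eigenspace_iff.1 hx
    have h3 := PiTensorProduct.submodule_span_eq_top (R := ℂ) (ι := Fin n) (M := fun _ => H)
      (γ := fun _ => {r : ℂ × H // F r.2 = r.1 • r.2}) (g := fun _ r => r.1.2) hg
    rw [eq_top_iff, ← h3]
    refine Submodule.span_le.2 ?_
    rintro _ ⟨r, rfl⟩
    refine Submodule.mem_iSup_of_mem (∏ j, (r j).1.1) (Submodule.subset_span ?_)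
    exact ⟨fun j => (r j).1.2, fun j => (r j).1.1, fun j => (r j).2, rfl, rfl⟩
  have h3 : t ∈ S μ ⊔ ⨆ (b) (_ : b ≠ μ), S b := by
    rw [← iSup_split_single, h2]; trivial
  obtain ⟨s, hs, r, hr, hsr⟩ := Submodule.mem_sup.1 h3
  have hr' : r ∈ ⨆ (b) (_ : b ≠ μ), (frobP F n).eigenspace b :=
    (iSup₂_mono fun b _ => h1 b) hr
  have hr2 : r ∈ (frobP F n).eigenspace μ := by
    have : r = t - s := by rw [← hsr]; abel
    rw [this]
    exact Submodule.sub_mem _ (Module.End.mem_eigenspace_iff.2 ht) (h1 μ hs)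
  have hdis := (Module.End.eigenspaces_iSupIndep (frobP F n)) μ
  have hr0 : r = 0 := (Submodule.disjoint_def.1 hdis) r hr2 hr'
  rw [← hsr, hr0, add_zero]
  exact hs

end MP_021685_agC2
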