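import Pool.Agent.Lib.MP_021685_agC2.WU

set_option autoImplicit false

/-! Lemmas on stable families. -/

open scoped TensorProduct

namespace MP_021685_agC2

variable {H : Type*} [AddCommGroup H] [Module ℂ H] {F : Module.End ℂ H} {q : ℕ}
  {C : ∀ n : ℕ, Submodule ℂ (⨂[ℂ]^n H)}

theorem sum_singletons {T : Type*} {n : ℕ} (p : Fin n → T) :
    ∑ j, ({p j} : Multiset T) = Finset.univ.val.map p := by
  have h : ((Finset.univ.val.map p).map fun a => ({a} : Multiset T)).sum =
      Finset.univ.val.map p := Multiset.sum_map_singleton _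
  rw [Multiset.map_map] at h
  exact h

theorem exists_mem_of_sum {T : Type*} {A : Multiset (Multiset T)} {r : T} (h : r ∈ A.sum) :
    ∃ y ∈ A, r ∈ y := by
  induction A using Multiset.induction with
  | empty => simp at h
  | cons y A ih =>
    rw [Multiset.sum_cons] at h
    rcases Multiset.mem_add.1 h with h | h
    · exact ⟨y, Multiset.mem_cons_self y A, h⟩
    · obtain ⟨z, hz, h⟩ := ih h
      exact ⟨z, Multiset.mem_cons_of_mem hz, h⟩

theorem Pm.finset_sum (hC : IsStableP F q C) {ι : Type*} (s : Finset ι) (M : ι → Multiset H)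
    (h : ∀ j ∈ s, Pm C (M j)) : Pm C (∑ j ∈ s, M j) := by
  classical
  induction s using Finset.induction_on with
  | empty => simpa using Pm.zero hC
  | insert a s ha ih =>
    rw [Finset.sum_insert ha]
    exact Pm.add hC (h a (Finset.mem_insert_self a s))
      (ih fun j hj => h j (Finset.mem_insert_of_mem hj))

theorem Pm.multiset_sum (hC : IsStableP F q C) {T : Type*} (A : Multiset (Multiset T))
    (g : T → H) (h : ∀ y ∈ A, Pm C (y.map g)) : Pm C (A.sum.map g) := by
  induction A using Multiset.induction with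
  | empty => simpa using Pm.zero hC
  | cons y A ih =>
    rw [Multiset.sum_cons, Multiset.map_add]
    exact Pm.add hC (h y (Multiset.mem_cons_self y A))
      (ih fun z hz => h z (Multiset.mem_cons_of_mem hz))

/-- Cancellation of pairs of dual eigenvectors. -/
theorem Pm.cancel (hC : IsStableP F q C) (hF : ⨆ a, F.eigenspace a = ⊤) {S : Set ℂ} {e : ℂ → H}
    (he : ∀ c ∈ S, c ≠ 0 ∧ e c ≠ 0 ∧ F (e c) = c • e c) (α : Multiset (ℕ × ℂ))
    (hα : ∀ r ∈ α, r.2 ∈ S ∧ (q : ℂ) / r.2 ∈ S) (m : Multiset H)
    (h : Pm C (m + α.map (fun r => e r.2) + α.map fun r => e (q / r.2))) : Pm C m := by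
  induction α using Multiset.induction with
  | empty => simpa using h
  | cons r α ih =>
    obtain ⟨hr, hr'⟩ := hα r (Multiset.mem_cons_self r α)
    have hr0 := (he _ hr).1
    refine ih (fun s hs => hα s (Multiset.mem_cons_of_mem hs)) ?_
    obtain ⟨β, hβ, hne⟩ := exists_tate_form (q := q) hF (he _ hr).2.1 (he _ hr').2.1 (he _ hr).2.2
      (he _ hr').2.2 (by field_simp)
    refine Pm.contract hC hβ hne ?_
    have : e r.2 ::ₘ e (q / r.2) ::ₘ (m + α.map (fun r => e r.2) + α.map fun r => e (q / r.2)) =
        m + (r ::ₘ α).map (fun r => e r.2) + (r ::ₘ α).map fun r => e (q / r.2) := by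
      rw [Multiset.map_cons, Multiset.map_cons, ← Multiset.singleton_add,
        ← Multiset.singleton_add (e (q / r.2)), ← Multiset.singleton_add (e r.2) (α.map _),
        ← Multiset.singleton_add (e (q / r.2)) (α.map _)]
      abel
    rw [this]
    exact h

/-- A bijection between two enumerations can be lifted. -/
theorem exists_lift {α β : Type*} (f : α → β) (z : Multiset α) {m : ℕ} (p : Fin m → β)
    (hp : z.map f = Finset.univ.val.map p) :
    ∃ r : Fin m → α, Finset.univ.val.map r = z ∧ ∀ j, f (r j) = p j := by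
  obtain ⟨n, r, rfl⟩ := exists_enum z
  have hn : n = m := by
    have := congrArg Multiset.card hp
    simpa using this
  subst hn
  rw [Multiset.map_map] at hp
  obtain ⟨e, he⟩ := exists_equiv _ _ hp
  refine ⟨fun j => r (e.symm j), ?_, fun j => ?_⟩
  · have h1 := Multiset.map_univ_val_equiv e.symm
    calc Finset.univ.val.map (fun j => r (e.symm j))
        = (Finset.univ.val.map e.symm).map r := by rw [Multiset.map_map]; rfl
      _ = _ := by rw [h1]
  · have := he (e.symm j)
    rw [e.apply_symm_apply] at this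
    exact this.symm

/-- If the tensors of eigenvectors with the eigenvalues `a j` are in `C`, then the tensors of
eigenvectors with the same multiset of eigenvalues are in `C`. -/
theorem Pm.of_enum (hC : IsStableP F q C) {m : ℕ} (a : Fin m → ℕ × ℂ)
    (h : ∀ v : Fin m → H, (∀ j, F (v j) = (a j).2 • v j) → PiTensorProduct.tprod ℂ v ∈ C m)
    (z : Multiset (H × (ℕ × ℂ))) (hz : ∀ r ∈ z, F r.1 = r.2.2 • r.1)
    (ha : z.map Prod.snd = Finset.univ.val.map a) : Pm C (z.map Prod.fst) := by
  obtain ⟨r, rfl, hr⟩ := exists_lift Prod.snd z a ha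
  rw [Multiset.map_map]
  refine Pm.of hC (h (fun j => (r j).1) fun j => ?_)
  rw [← hr]
  exact hz _ (Multiset.mem_map_of_mem r (Finset.mem_univ j))

theorem univ_two {T : Type*} (a b : T) :
    (Finset.univ : Finset (Fin 2)).val.map ![a, b] = {a, b} := by
  rw [Fin.univ_val_map]
  simp only [List.ofFn_succ]
  rfl

theorem univ_four {T : Type*} (a b c d : T) :
    (Finset.univ : Finset (Fin 4)).val.map ![a, b, c, d] = {a, b, c, d} := by
  rw [Fin.univ_val_map]
  simp only [List.ofFn_succ]
  rfl

theorem univ_cons {T : Type*} (n : ℕ) (a : T) (v : Fin n → T) :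
    (Finset.univ : Finset (Fin (n + 1))).val.map (Fin.cons a v : Fin (n + 1) → T) =
      a ::ₘ Finset.univ.val.map v := by
  rw [Fin.univ_val_map, Fin.univ_val_map, List.ofFn_succ]
  simp

end MP_021685_agC2
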