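import Pool.Agent.Lib.MP_021685_agC2.WV
import Pool.Agent.Lib.MP_021685_agC2.WE

set_option autoImplicit false

/-! Stable families which contain the basic tensors and the links contain all Tate tensors:
effective form. -/

open scoped TensorProduct

namespace MP_021685_agC2

variable {H : Type*} [AddCommGroup H] [Module ℂ H] {F : Module.End ℂ H} {q : ℕ}

/-- The basic multisets. -/
theorem pm_basic {C : ∀ n : ℕ, Submodule ℂ (TP H n)} (hC : IsStable F q C) {N : ℕ} {V : Finset ℂ}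
    (hB : HasBasics F q N V C) {y : Multiset (ℕ × ℂ)} (hy : IsBasic q N y)
    (hV : ∀ r ∈ y, r.2 ∈ V) (z : Multiset (H × (ℕ × ℂ))) (hz : ∀ r ∈ z, F r.1 = r.2.2 • r.1)
    (hzy : z.map Prod.snd = y) :
    Pm (C : ∀ n : ℕ, Submodule ℂ (⨂[ℂ]^n H)) (z.map Prod.fst) := by
  obtain ⟨⟨d, -, h2, h3⟩, ⟨a, b, rfl⟩ | ⟨a, b, c, hc, rfl⟩⟩ := hy
  · have hd : d = 1 := by simp at h2; omega
    subst hd
    have hab : a * b = q := by simpa using h3
    refine Pm.of_enum hC.toP ![(1, a), (1, b)] (fun v hv => ?_) z hz (by rw [hzy, univ_two])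
    have h4 := hB.two (hV (1, a) (by simp)) (hV (1, b) (by simp)) hab (hv 0) (hv 1)
    have h5 : v = ![v 0, v 1] := by
      funext j; fin_cases j <;> rfl
    rw [h5]
    exact h4
  · have hd : d = 2 := by simp at h2; omega
    subst hd
    have hab : a * b * c * rt q = q ^ 2 := by
      rw [← h3]; simp [mul_assoc]
    refine Pm.of_enum hC.toP ![(1, a), (1, b), (1, c), (1, rt q)] (fun v hv => ?_) z hz
      (by rw [hzy, univ_four])
    have h4 := hB.four (hV (1, a) (by simp)) (hV (1, b) (by simp)) (hV (1, c) (by simp)) hc hab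
      (hv 0) (hv 1) (hv 2) (hv 3)
    have h5 : v = ![v 0, v 1, v 2, v 3] := by
      funext j; fin_cases j <;> rfl
    rw [h5]
    exact h4

/-- The links. -/
theorem pm_link {C : ∀ n : ℕ, Submodule ℂ (TP H n)} (hC : IsStable F q C) {W V : Finset ℂ}
    (hL : HasLinks F q W V C) {p : ℕ × ℂ} {c : ℂ} (hp : p.2 ∈ W) (hpw : IsWeilOf q p.1 p.2)
    (hc : c ∈ V) (h : p.2 * c ^ p.1 = (q : ℂ) ^ p.1) (z : Multiset (H × (ℕ × ℂ)))
    (hz : ∀ r ∈ z, F r.1 = r.2.2 • r.1)
    (hzy : z.map Prod.snd = p ::ₘ Multiset.replicate p.1 (1, c)) :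
    Pm (C : ∀ n : ℕ, Submodule ℂ (⨂[ℂ]^n H)) (z.map Prod.fst) := by
  refine Pm.of_enum hC.toP (Fin.cons p fun _ : Fin p.1 => ((1 : ℕ), c)) (fun v hv => ?_) z hz
    (by rw [hzy, univ_cons]; simp)
  have h4 := hL p.1 p.2 c hp hpw hc h (v 0) (fun j => v j.succ) (hv 0) (fun j => by
    have := hv j.succ
    rwa [Fin.cons_succ] at this)
  have h5 : v = (Fin.cons (v 0) fun j => v j.succ : Fin (p.1 + 1) → H) := by
    funext j
    refine Fin.cases ?_ (fun i => ?_) j
    · rw [Fin.cons_zero]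
    · rw [Fin.cons_succ]
  rw [h5]
  exact h4

end MP_021685_agC2
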