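import Pool.Agent.Lib.MP_021685_agC2.WY

set_option autoImplicit false

/-! The effective tensor version, final form. -/

open scoped TensorProduct

namespace MP_021685_agC2

section
variable {H : Type*} [AddCommGroup H] [Module ℂ H] {F : Module.End ℂ H}

/-- A tensor over the eigenspaces for `W` which is an eigenvector of `F ⊗ ⋯ ⊗ F` is a combination of
tensors of eigenvectors with eigenvalues in `W` and with the same product. -/
theorem mem_span_of_over {W : Finset ℂ} {n : ℕ} {t : ⨂[ℂ]^n H} {μ : ℂ}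
    (htW : t ∈ Submodule.span ℂ {t : ⨂[ℂ]^n H | ∃ (v : Fin n → H) (a : Fin n → ℂ),
      (∀ j, a j ∈ W ∧ F (v j) = a j • v j) ∧ t = PiTensorProduct.tprod ℂ v})
    (ht : frobP F n t = μ • t) :
    t ∈ Submodule.span ℂ {s | ∃ (v : Fin n → H) (a : Fin n → ℂ),
      (∀ j, a j ∈ W ∧ F (v j) = a j • v j) ∧ ∏ j, a j = μ ∧ s = PiTensorProduct.tprod ℂ v} := by
  set S : ℂ → Submodule ℂ (⨂[ℂ]^n H) := fun μ => Submodule.span ℂ {s | ∃ (v : Fin n → H)
    (a : Fin n → ℂ), (∀ j, a j ∈ W ∧ F (v j) = a j • v j) ∧ ∏ j, a j = μ ∧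
      s = PiTensorProduct.tprod ℂ v} with hS
  have h1 : ∀ μ, S μ ≤ (frobP F n).eigenspace μ := by
    intro μ
    refine Submodule.span_le.2 ?_
    rintro _ ⟨v, a, hv, rfl, rfl⟩
    rw [SetLike.mem_coe, Module.End.mem_eigenspace_iff, frobP, PiTensorProduct.map_tprod]
    have : (fun i => F (v i)) = fun i => a i • v i := funext fun i => (hv i).2
    rw [this, MultilinearMap.map_smul_univ]
  have h2 : t ∈ ⨆ μ, S μ := by
    refine Submodule.span_le.2 ?_ htW
    rintro _ ⟨v, a, hv, rfl⟩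
    exact Submodule.mem_iSup_of_mem (∏ j, a j) (Submodule.subset_span ⟨v, a, hv, rfl, rfl⟩)
  have h3 : t ∈ S μ ⊔ ⨆ (b) (_ : b ≠ μ), S b := by
    rw [← iSup_split_single]; exact h2
  obtain ⟨s, hs, r, hr, hsr⟩ := Submodule.mem_sup.1 h3
  have hr' : r ∈ ⨆ (b) (_ : b ≠ μ), (frobP F n).eigenspace b :=
    (iSup₂_mono fun b _ => h1 b) hr
  have hr2 : r ∈ (frobP F n).eigenspace μ := by
    have : r = t - s := by rw [← hsr]; abel
    rw [this]
    exact Submodule.sub_mem _ (Module.End.mem_eigenspace_iff.2 ht) (h1 μ hs)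
  have hdis := (Module.End.eigenspaces_iSupIndep (frobP F n)) μ
  have hr0 : r = 0 := (Submodule.disjoint_def.1 hdis) r hr2 hr'
  rw [← hsr, hr0, add_zero]
  exact hs

end

/-- **Theorem.** For every finite set `W` of Weil numbers of positive weights there is a finite set
`V` of Weil numbers of weight one such that the basic tensors over `V` and the links between `W` and
`V` generate all the Tate tensors over `W`. -/
theorem final {q : ℕ} (hq : 1 < q) (N : ℕ) (W : Finset ℂ)
    (hW : ∀ a ∈ W, ∃ w, 0 < w ∧ IsWeilOf q w a) :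
    ∃ V : Finset ℂ, (∀ c ∈ V, IsWeilOf q 1 c) ∧
      ∀ (H : Type*) [AddCommGroup H] [Module ℂ H] (F : Module.End ℂ H)
        (C : ∀ n : ℕ, Submodule ℂ (TP H n)), (⨆ a, F.eigenspace a = ⊤) →
        (∀ c ∈ V, F.HasEigenvalue c) → IsStable F q C → HasBasics F q N V C →
        HasLinks F q W V C →
        ∀ n d : ℕ, ∀ t ∈ Over F W n, frob F n t = (q : ℂ) ^ d • t → t ∈ C n := by
  obtain ⟨V, wt, l, D⟩ := exists_data hq N W hW
  refine ⟨V, D.weil, ?_⟩
  intro H _ _ F C hF h1 hC hB hL n d t htW ht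
  have h2 := mem_span_of_over (F := F) (W := W) (n := n) (t := t) htW ht
  refine (Submodule.span_le (p := (C n : Submodule ℂ (⨂[ℂ]^n H)))).2 ?_ h2
  rintro _ ⟨v, a, hv, ha, rfl⟩
  exact pure_mem hq D hF h1 hC hB hL (fun j => (hv j).2) (fun j => (hv j).1) ha

end MP_021685_agC2
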