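import Pool.Agent.Lib.MP_021685_agC2.WW

set_option autoImplicit false

/-! The tensors of eigenvectors. -/

open scoped TensorProduct

namespace MP_021685_agC2

variable {H : Type*} [AddCommGroup H] [Module ℂ H] {F : Module.End ℂ H} {q : ℕ}

/-- The weight of a Weil number is unique. -/
theorem weight_unique (hq : 1 < q) {w w' : ℕ} {a : ℂ} (h : IsWeilOf q w a)
    (h' : IsWeilOf q w' a) : w = w' := by
  have h1 := h.2 a (minpoly.aeval ℚ a)
  have h2 := h'.2 a (minpoly.aeval ℚ a)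
  rw [h1] at h2
  exact Nat.pow_right_injective hq (by exact_mod_cast h2)

/-- The data used: the finite set `V` of Weil numbers attached to `W`. -/
structure Data (q N : ℕ) (W V : Finset ℂ) (wt : ℂ → ℕ) (l : ℕ × ℂ → Multiset (ℕ × ℂ)) : Prop where
  wt_pos : ∀ a ∈ W, 0 < wt a ∧ IsWeilOf q (wt a) a
  weil : ∀ c ∈ V, IsWeilOf q 1 c
  dual : ∀ c ∈ V, (q : ℂ) / c ∈ V
  key : ∀ (d : ℕ) (x : Multiset (ℕ × ℂ)), IsTate q d x → (∀ p ∈ x, p.2 ∈ W ∧ p.1 = wt p.2) →
    ∃ A B : Multiset (Multiset (ℕ × ℂ)),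
      (∀ p ∈ x, IsLink q p (l p) ∧ ∀ c, l p = p ::ₘ Multiset.replicate p.1 (1, c) → c ∈ V) ∧
        (∀ y ∈ A, IsBasic q N y ∧ ∀ r ∈ y, r.2 ∈ V) ∧
          (∀ y ∈ B, IsBasic q N y ∧ ∀ r ∈ y, r.2 ∈ V) ∧ x + A.sum = (x.map l).sum + B.sum

theorem exists_data (hq : 1 < q) (N : ℕ) (W : Finset ℂ)
    (hW : ∀ a ∈ W, ∃ w, 0 < w ∧ IsWeilOf q w a) :
    ∃ (V : Finset ℂ) (wt : ℂ → ℕ) (l : ℕ × ℂ → Multiset (ℕ × ℂ)), Data q N W V wt l := by
  classical
  have hq0 : 0 < q := by omega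
  have h1 : ∀ a : ℂ, ∃ w : ℕ, a ∈ W → 0 < w ∧ IsWeilOf q w a := by
    intro a
    by_cases ha : a ∈ W
    · obtain ⟨w, hw⟩ := hW a ha
      exact ⟨w, fun _ => hw⟩
    · exact ⟨0, fun h => absurd h ha⟩
  choose wt hwt using h1
  obtain ⟨V', l, hV'⟩ := main_finite hq0 N (W.image fun a => (wt a, a))
  set V0 : Finset ℂ := (V'.filter fun r => IsWeilOf q 1 r.2).image Prod.snd with hV0
  have hV0w : ∀ c ∈ V0, IsWeilOf q 1 c := by
    intro c hc
    obtain ⟨r, hr, rfl⟩ := Finset.mem_image.1 hc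
    exact (Finset.mem_filter.1 hr).2
  have hin : ∀ r ∈ V', IsWeilOf q 1 r.2 → r.2 ∈ V0 := fun r hr hr' =>
    Finset.mem_image_of_mem _ (Finset.mem_filter.2 ⟨hr, hr'⟩)
  have hbas : ∀ y, IsBasic q N y → (∀ r ∈ y, r ∈ V') →
      ∀ r ∈ y, r.2 ∈ V0 ∪ V0.image fun c => (q : ℂ) / c := fun y hy hyV r hr =>
    Finset.mem_union_left _ (hin r (hyV r hr) (basic_one hy r hr).2)
  refine ⟨V0 ∪ V0.image fun c => (q : ℂ) / c, wt, l, fun a ha => hwt a ha, ?_, ?_, ?_⟩
  · intro c hc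
    rcases Finset.mem_union.1 hc with hc | hc
    · exact hV0w c hc
    · obtain ⟨b, hb, rfl⟩ := Finset.mem_image.1 hc
      exact isWeilOf_one.2 ((isWeilOf_one.1 (hV0w b hb)).div hq0)
  · intro c hc
    rcases Finset.mem_union.1 hc with hc | hc
    · exact Finset.mem_union_right _ (Finset.mem_image_of_mem (fun c => (q : ℂ) / c) hc)
    · obtain ⟨b, hb, rfl⟩ := Finset.mem_image.1 hc
      have hq' : (q : ℂ) ≠ 0 := by exact_mod_cast hq0.ne'
      have hb0 := (isWeilOf_one.1 (hV0w b hb)).ne_zero hq0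
      have : (q : ℂ) / ((q : ℂ) / b) = b := by field_simp
      rw [this]
      exact Finset.mem_union_left _ hb
  · intro d x hx hxW
    obtain ⟨A, B, h1, h2, h3, h4⟩ := hV' d x hx (by
      intro p hp
      obtain ⟨hp1, hp2⟩ := hxW p hp
      exact Finset.mem_image.2 ⟨p.2, hp1, by rw [← hp2]⟩)
    refine ⟨A, B, fun p hp => ⟨(h1 p hp).1, fun c hc => ?_⟩,
      fun y hy => ⟨(h2 y hy).1, hbas y (h2 y hy).1 (h2 y hy).2⟩,
      fun y hy => ⟨(h3 y hy).1, hbas y (h3 y hy).1 (h3 y hy).2⟩, h4⟩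
    have hp0 : p.1 ≠ 0 := (hx.1 p hp).1.ne'
    have hmem : ((1 : ℕ), c) ∈ l p := by
      rw [hc]
      exact Multiset.mem_cons_of_mem (Multiset.mem_replicate.2 ⟨hp0, rfl⟩)
    obtain ⟨⟨d', h5, -, -⟩, -⟩ := (h1 p hp).1
    exact Finset.mem_union_left _ (hin _ ((h1 p hp).2 _ hmem) (h5 _ hmem).2)

/-- The tensors of eigenvectors. -/
theorem pure_mem (hq : 1 < q) {N : ℕ} {W V : Finset ℂ} {wt : ℂ → ℕ}
    {l : ℕ × ℂ → Multiset (ℕ × ℂ)} (D : Data q N W V wt l) (hF : ⨆ a, F.eigenspace a = ⊤)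
    (h1 : ∀ c ∈ V, F.HasEigenvalue c) {C : ∀ n : ℕ, Submodule ℂ (TP H n)} (hC : IsStable F q C)
    (hB : HasBasics F q N V C) (hL : HasLinks F q W V C)
    {n d : ℕ} {v : Fin n → H} {a : Fin n → ℂ} (hv : ∀ j, F (v j) = a j • v j)
    (haW : ∀ j, a j ∈ W) (hprod : ∏ j, a j = (q : ℂ) ^ d) :
    (PiTensorProduct.tprod ℂ v : ⨂[ℂ]^n H) ∈ (C : ∀ n : ℕ, Submodule ℂ (⨂[ℂ]^n H)) n := by
  classical
  have hq0 : 0 < q := by omega
  have hCP := hC.toP
  set C' : ∀ n : ℕ, Submodule ℂ (⨂[ℂ]^n H) := C with hC'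
  have he1 : ∀ c : ℂ, ∃ x : H, c ∈ V → F.HasEigenvector c x := by
    intro c
    by_cases hc : c ∈ V
    · obtain ⟨x, hx⟩ := (h1 c hc).exists_hasEigenvector
      exact ⟨x, fun _ => hx⟩
    · exact ⟨0, fun h => absurd h hc⟩
  choose e he using he1
  have he' : ∀ c ∈ V, e c ≠ 0 ∧ F (e c) = c • e c := fun c hc =>
    ⟨(he c hc).2, (he c hc).apply_eq_smul⟩
  set p : Fin n → ℕ × ℂ := fun j => (wt (a j), a j) with hp
  have hwa : ∀ j, IsWeilOf q (wt (a j)) (a j) := fun j => (D.wt_pos _ (haW j)).2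
  have hnorm : (∏ j, (q : ℝ) ^ wt (a j)) = (q : ℝ) ^ (2 * d) := by
    have h2 : ∀ j, ‖a j‖ ^ 2 = (q : ℝ) ^ wt (a j) := fun j =>
      (hwa j).2 _ (minpoly.aeval ℚ (a j))
    calc (∏ j, (q : ℝ) ^ wt (a j)) = ∏ j, ‖a j‖ ^ 2 := by simp [h2]
      _ = ‖∏ j, a j‖ ^ 2 := by rw [Finset.prod_pow, norm_prod]
      _ = _ := by rw [hprod, norm_pow, Complex.norm_natCast, ← pow_mul, mul_comm]
  have hsum : ∑ j, wt (a j) = 2 * d := by
    rw [Finset.prod_pow_eq_pow_sum] at hnorm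
    exact Nat.pow_right_injective hq (by exact_mod_cast hnorm)
  have hx : IsTate q d (Finset.univ.val.map p) := by
    refine ⟨?_, ?_, ?_⟩
    · intro r hr
      obtain ⟨j, -, rfl⟩ := Multiset.mem_map.1 hr
      exact D.wt_pos _ (haW j)
    · rw [Multiset.map_map, ← hsum]; rfl
    · rw [Multiset.map_map, ← hprod]; rfl
  obtain ⟨A, B, hl, hA, hB', hsumx⟩ := D.key d _ hx (by
    intro r hr
    obtain ⟨j, -, rfl⟩ := Multiset.mem_map.1 hr
    exact ⟨haW j, rfl⟩)
  have hc : ∀ j, ∃ c ∈ V, a j * c ^ wt (a j) = (q : ℂ) ^ wt (a j) ∧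
      l (p j) = p j ::ₘ Multiset.replicate (wt (a j)) (1, c) := by
    intro j
    have hmem : p j ∈ Finset.univ.val.map p := Multiset.mem_map_of_mem p (Finset.mem_univ j)
    obtain ⟨⟨⟨d', h2, h3, h4⟩, c, hc⟩, h5⟩ := hl _ hmem
    refine ⟨c, h5 c hc, ?_, hc⟩
    rw [hc] at h3 h4
    simp only [hp, Multiset.map_cons, Multiset.map_replicate, Multiset.sum_cons,
      Multiset.sum_replicate, smul_eq_mul, mul_one, Multiset.prod_cons,
      Multiset.prod_replicate] at h3 h4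
    have : d' = wt (a j) := by omega
    rw [h4, this]
  choose c hc1 hc3 hc2 using hc
  -- the multiset identity
  have hkey : A.sum = ∑ j, Multiset.replicate (wt (a j)) ((1 : ℕ), c j) + B.sum := by
    have h2 : ((Finset.univ.val.map p).map l).sum =
        Finset.univ.val.map p + ∑ j, Multiset.replicate (wt (a j)) ((1 : ℕ), c j) := by
      rw [Multiset.map_map]
      calc ((Finset.univ.val.map (l ∘ p)).sum) = ∑ j, l (p j) := rfl
        _ = ∑ j, ({p j} + Multiset.replicate (wt (a j)) ((1 : ℕ), c j)) :=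
          Finset.sum_congr rfl fun j _ => by rw [hc2, Multiset.singleton_add]
        _ = _ := by
          rw [Finset.sum_add_distrib, sum_singletons]
    rw [h2, add_assoc] at hsumx
    exact add_left_cancel hsumx
  have hPL : Pm C' (∑ j, (v j ::ₘ Multiset.replicate (wt (a j)) (e (c j)))) := by
    refine Pm.finset_sum hCP _ _ fun j _ => ?_
    have := pm_link hC hL (p := p j) (c := c j) (haW j) (hwa j) (hc1 j) (hc3 j)
      ((v j, p j) ::ₘ Multiset.replicate (wt (a j)) (e (c j), ((1 : ℕ), c j)))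
      (by
        intro r hr
        rcases Multiset.mem_cons.1 hr with rfl | hr
        · exact hv j
        · rw [Multiset.eq_of_mem_replicate hr]
          exact (he' _ (hc1 j)).2)
      (by rw [Multiset.map_cons, Multiset.map_replicate])
    rw [Multiset.map_cons, Multiset.map_replicate] at this
    exact this
  have hPB : Pm C' (B.sum.map fun r => e r.2) := by
    refine Pm.multiset_sum hCP _ _ fun y hy => ?_
    have := pm_basic hC hB (hB' y hy).1 (hB' y hy).2 (y.map fun r => (e r.2, r)) (by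
        intro r hr
        obtain ⟨s, hs, rfl⟩ := Multiset.mem_map.1 hr
        exact (he' _ ((hB' y hy).2 s hs)).2)
      (by rw [Multiset.map_map]; simp [Function.comp_def])
    rw [Multiset.map_map] at this
    exact this
  have hPA : Pm C' (A.sum.map fun r => e (q / r.2)) := by
    refine Pm.multiset_sum hCP _ _ fun y hy => ?_
    have := pm_basic hC hB (dual_basic hq0 (hA y hy).1) (by
        intro r hr
        obtain ⟨s, hs, rfl⟩ := Multiset.mem_map.1 hr
        exact D.dual _ ((hA y hy).2 s hs))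
      (y.map fun r => (e (q / r.2), ((1 : ℕ), (q : ℂ) / r.2))) (by
        intro r hr
        obtain ⟨s, hs, rfl⟩ := Multiset.mem_map.1 hr
        exact (he' _ (D.dual _ ((hA y hy).2 s hs))).2)
      (by rw [Multiset.map_map]; rfl)
    rw [Multiset.map_map] at this
    exact this
  have hAV : ∀ r ∈ A.sum, r.2 ∈ (V : Set ℂ) ∧ (q : ℂ) / r.2 ∈ (V : Set ℂ) := by
    intro r hr
    obtain ⟨y, hy, hr⟩ := exists_mem_of_sum hr
    exact ⟨(hA y hy).2 r hr, D.dual _ ((hA y hy).2 r hr)⟩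
  have hall : Pm C' (Finset.univ.val.map v + A.sum.map (fun r => e r.2) +
      A.sum.map fun r => e (q / r.2)) := by
    refine Pm.add hCP ?_ hPA
    have h2 := Pm.add hCP hPL hPB
    have h3 : ∑ j, (v j ::ₘ Multiset.replicate (wt (a j)) (e (c j))) +
        B.sum.map (fun r => e r.2) = Finset.univ.val.map v + A.sum.map fun r => e r.2 := by
      rw [hkey, Multiset.map_add]
      have h4 : (∑ j, Multiset.replicate (wt (a j)) ((1 : ℕ), c j)).map (fun r => e r.2) =
          ∑ j, Multiset.replicate (wt (a j)) (e (c j)) := by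
        have := map_sum (Multiset.mapAddMonoidHom fun r : ℕ × ℂ => e r.2)
          (fun j => Multiset.replicate (wt (a j)) ((1 : ℕ), c j)) Finset.univ
        simp only [Multiset.coe_mapAddMonoidHom, Multiset.map_replicate] at this
        exact this
      rw [h4, ← add_assoc]
      congr 1
      calc ∑ j, (v j ::ₘ Multiset.replicate (wt (a j)) (e (c j)))
          = ∑ j, ({v j} + Multiset.replicate (wt (a j)) (e (c j))) :=
            Finset.sum_congr rfl fun j _ => by rw [Multiset.singleton_add]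
        _ = _ := by
          rw [Finset.sum_add_distrib, sum_singletons]
    rw [← h3]
    exact h2
  exact Pm.cancel hCP hF (S := (V : Set ℂ)) (fun c hc =>
    ⟨(isWeilOf_one.1 (D.weil c hc)).ne_zero hq0, he' c hc⟩) _ hAV _ hall n v rfl

end MP_021685_agC2
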