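import Pool.Agent.Lib.MP_021685_agC2.WX

set_option autoImplicit false

/-! One class of degree four suffices. -/

open scoped TensorProduct

namespace MP_021685_agC2

variable {H : Type*} [AddCommGroup H] [Module ℂ H]

/-- The value of `φ₁ ⊗ ⋯ ⊗ φ_n` at a tensor, for linear forms `φ_j` on `H`. -/
noncomputable def evalT {n : ℕ} (φ : Fin n → H →ₗ[ℂ] ℂ) : TP H n →ₗ[ℂ] ℂ :=
  PiTensorProduct.lift ((MultilinearMap.mkPiAlgebra ℂ (Fin n) ℂ).compLinearMap φ)

/-- The tensor `Γ` in `H ⊗ H ⊗ H ⊗ H` has a nonzero component in the tensor product of the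
eigenspaces for `a`, `b`, `c`, `s`, for all `a`, `b`, `c` in `V` with `a b c s = q ^ 2` and `c`
`N`-near to `s = √q`: some `φ₁ ⊗ φ₂ ⊗ φ₃ ⊗ φ₄` with `φ_j ∘ F = a φ_j, b φ_j, c φ_j, s φ_j` is not
zero at `Γ`. -/
def IsFull (F : Module.End ℂ H) (q N : ℕ) (V : Finset ℂ) (Γ : TP H 4) : Prop :=
  ∀ a b c : ℂ, a ∈ V → b ∈ V → c ∈ V → IsNear q N c → a * b * c * rt q = q ^ 2 →
    ∃ φ : Fin 4 → H →ₗ[ℂ] ℂ,
      (∀ j x, φ j (F x) = (![a, b, c, rt q] : Fin 4 → ℂ) j * φ j x) ∧ evalT φ Γ ≠ 0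

/-- `C` contains the tensors of two eigenvectors with eigenvalues `a`, `b` in `V` such that
`a b = q`. -/
def HasPairs (F : Module.End ℂ H) (q : ℕ) (V : Finset ℂ)
    (C : ∀ n : ℕ, Submodule ℂ (TP H n)) : Prop :=
  ∀ {a b : ℂ}, a ∈ V → b ∈ V → a * b = q →
    ∀ {t u : H}, F t = a • t → F u = b • u → tens ![t, u] ∈ C 2

/-- The same with `PiTensorProduct`. -/
noncomputable def evalP {n : ℕ} (φ : Fin n → H →ₗ[ℂ] ℂ) : ⨂[ℂ]^n H →ₗ[ℂ] ℂ :=
  PiTensorProduct.lift ((MultilinearMap.mkPiAlgebra ℂ (Fin n) ℂ).compLinearMap φ)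

theorem evalP_tprod {n : ℕ} (φ : Fin n → H →ₗ[ℂ] ℂ) (v : Fin n → H) :
    evalP φ (PiTensorProduct.tprod ℂ v) = ∏ j, φ j (v j) := by
  unfold evalP
  rw [PiTensorProduct.lift.tprod, MultilinearMap.compLinearMap_apply,
    MultilinearMap.mkPiAlgebra_apply]

/-- Replacing the `i`-th factor `x` by `φ x` times `t`. -/
noncomputable def repl (n : ℕ) (i : Fin n) (φ : H →ₗ[ℂ] ℂ) (t : H) :
    ⨂[ℂ]^n H →ₗ[ℂ] ⨂[ℂ]^n H :=
  PiTensorProduct.map (Function.update (fun _ => LinearMap.id) i (LinearMap.smulRight φ t))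

theorem repl_tprod {n : ℕ} (i : Fin n) (φ : H →ₗ[ℂ] ℂ) (t : H) (v : Fin n → H) :
    repl n i φ t (PiTensorProduct.tprod ℂ v) =
      φ (v i) • PiTensorProduct.tprod ℂ (Function.update v i t) := by
  unfold repl
  rw [PiTensorProduct.map_tprod]
  have h1 : (fun j => (Function.update (fun _ => (LinearMap.id : H →ₗ[ℂ] H)) i
      (LinearMap.smulRight φ t) : Fin n → H →ₗ[ℂ] H) j (v j)) =
      Function.update v i (φ (v i) • t) := by
    funext j
    by_cases h : j = i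
    · subst h
      rw [Function.update_self, Function.update_self]
      rfl
    · rw [Function.update_of_ne h, Function.update_of_ne h]
      rfl
  rw [h1, MultilinearMap.map_update_smul]

omit [AddCommGroup H] [Module ℂ H] in
theorem swap_append {n : ℕ} (i : Fin n) (t u : H) (v : Fin n → H) :
    (fun j => Fin.append ![t, u] v (Equiv.swap (Fin.castAdd n (0 : Fin 2)) (Fin.natAdd 2 i) j)) =
      Fin.append ![v i, u] (Function.update v i t) := by
  funext j
  refine Fin.addCases (fun j => ?_) (fun j => ?_) j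
  · fin_cases j
    · show Fin.append ![t, u] v (Equiv.swap (Fin.castAdd n (0 : Fin 2)) (Fin.natAdd 2 i)
        (Fin.castAdd n (0 : Fin 2))) = _
      rw [Equiv.swap_apply_left, Fin.append_right]
      show v i = Fin.append ![v i, u] (Function.update v i t) (Fin.castAdd n (0 : Fin 2))
      rw [Fin.append_left]
      rfl
    · show Fin.append ![t, u] v (Equiv.swap (Fin.castAdd n (0 : Fin 2)) (Fin.natAdd 2 i)
        (Fin.castAdd n (1 : Fin 2))) =
        Fin.append ![v i, u] (Function.update v i t) (Fin.castAdd n (1 : Fin 2))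
      rw [Equiv.swap_apply_of_ne_of_ne, Fin.append_left, Fin.append_left]
      · rfl
      · intro h
        have := congrArg Fin.val h
        simp at this
      · intro h
        have := congrArg Fin.val h
        simp at this
        omega
  · rw [Fin.append_right]
    by_cases h : j = i
    · subst h
      rw [Equiv.swap_apply_right, Fin.append_left, Function.update_self]
      rfl
    · rw [Equiv.swap_apply_of_ne_of_ne, Fin.append_right, Function.update_of_ne h]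
      · intro h'
        have := congrArg Fin.val h'
        simp at this
      · intro h'
        exact h ((Fin.natAdd_inj 2).1 h')

variable {F : Module.End ℂ H} {q : ℕ}

/-- Stable families are stable under replacing a factor. -/
theorem repl_mem {C : ∀ n : ℕ, Submodule ℂ (⨂[ℂ]^n H)} (hC : IsStableP F q C)
    (hF : ⨆ a, F.eigenspace a = ⊤) {V : Finset ℂ} (hV : ∀ c ∈ V, (q : ℂ) / c ∈ V)
    (hV0 : ∀ c ∈ V, c ≠ 0) (h1 : ∀ c ∈ V, F.HasEigenvalue c)
    (hP : ∀ a ∈ V, ∀ b ∈ V, a * b = q → ∀ t u : H, F t = a • t → F u = b • u →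
      (PiTensorProduct.tprod ℂ ![t, u] : ⨂[ℂ]^2 H) ∈ C 2)
    {n : ℕ} (i : Fin n) {a : ℂ} (ha : a ∈ V) {φ : H →ₗ[ℂ] ℂ} (hφ : ∀ x, φ (F x) = a * φ x)
    {t : H} (ht : F t = a • t) {Γ : ⨂[ℂ]^n H} (hΓ : Γ ∈ C n) :
    repl n i φ t Γ ∈ C n := by
  obtain ⟨u, hu⟩ := (h1 _ (hV a ha)).exists_hasEigenvector
  have hu1 : F u = ((q : ℂ) / a) • u := hu.apply_eq_smul
  obtain ⟨χ, hχ1, hχ2⟩ := exists_functional hF hu.2 hu1
  have hab : a * ((q : ℂ) / a) = q := by
    have := hV0 a ha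
    field_simp
  have h2 : (PiTensorProduct.tprod ℂ ![t, u] : ⨂[ℂ]^2 H) ∈ C 2 :=
    hP a ha _ (hV a ha) hab t u ht hu1
  obtain ⟨β, hβd⟩ : ∃ β : ⨂[ℂ]^2 H →ₗ[ℂ] ℂ, β = evalP ![φ, χ] := ⟨_, rfl⟩
  have hβ : ∀ v : Fin 2 → H, β (PiTensorProduct.tprod ℂ v) = φ (v 0) * χ (v 1) := by
    intro v
    rw [hβd, evalP_tprod, Fin.prod_univ_two]
    rfl
  have hβF : ∀ t, β (frobP F 2 t) = q * β t := by
    intro t
    have : β ∘ₗ frobP F 2 = (q : ℂ) • β := by
      refine PiTensorProduct.ext (MultilinearMap.ext fun w => ?_)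
      rw [LinearMap.compMultilinearMap_apply, LinearMap.compMultilinearMap_apply,
        LinearMap.comp_apply, frobP, PiTensorProduct.map_tprod, LinearMap.smul_apply, hβ, hβ,
        hφ, hχ2, smul_eq_mul]
      linear_combination (φ (w 0) * χ (w 1)) * hab
    exact LinearMap.congr_fun this t
  obtain ⟨σ, hσ⟩ : ∃ σ : Equiv.Perm (Fin (2 + n)), σ = Equiv.swap (Fin.castAdd n (0 : Fin 2))
    (Fin.natAdd 2 i) := ⟨_, rfl⟩
  have h3 := hC.mul_mem h2 hΓ
  have h4 := hC.perm_mem σ h3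
  have h5 := hC.contract_mem hβF h4
  have h6 : contrP β n (PiTensorProduct.reindex ℂ (fun _ => H) σ
      (TensorPower.mulEquiv ((PiTensorProduct.tprod ℂ ![t, u] : ⨂[ℂ]^2 H) ⊗ₜ[ℂ] Γ))) =
      χ u • repl n i φ t Γ := by
    have key : (contrP β n).comp ((PiTensorProduct.reindex ℂ (fun _ => H) σ).toLinearMap.comp
        ((TensorPower.mulEquiv (R := ℂ) (M := H) (n := 2) (m := n)).toLinearMap.comp
          (TensorProduct.mk ℂ _ _ (PiTensorProduct.tprod ℂ ![t, u] : ⨂[ℂ]^2 H)))) =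
        χ u • repl n i φ t := by
      refine PiTensorProduct.ext (MultilinearMap.ext fun w => ?_)
      rw [LinearMap.compMultilinearMap_apply, LinearMap.compMultilinearMap_apply,
        LinearMap.smul_apply, repl_tprod]
      show contrP β n (PiTensorProduct.reindex ℂ (fun _ => H) σ
        (TensorPower.mulEquiv ((PiTensorProduct.tprod ℂ ![t, u] : ⨂[ℂ]^2 H) ⊗ₜ[ℂ]
          (PiTensorProduct.tprod ℂ w : ⨂[ℂ]^n H)))) = _
      have e1 := TensorPower.tprod_mul_tprod (R := ℂ) ![t, u] w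
      rw [TensorPower.gMul_def] at e1
      rw [e1, PiTensorProduct.reindex_tprod]
      have e2 : (fun j => Fin.append ![t, u] w (σ.symm j)) =
          Fin.append ![w i, u] (Function.update w i t) := by
        rw [hσ, Equiv.symm_swap]
        exact swap_append i t u w
      rw [e2, contrP_tprod, hβ, smul_smul]
      congr 1
      rw [mul_comm]
      rfl
    exact LinearMap.congr_fun key Γ
  rw [h6] at h5
  exact ((C n).smul_mem_iff hχ1).1 h5

/-- One full class gives all the basic tensors of degree four. -/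
theorem four_mem {C : ∀ n : ℕ, Submodule ℂ (⨂[ℂ]^n H)} (hC : IsStableP F q C)
    (hF : ⨆ a, F.eigenspace a = ⊤) {V : Finset ℂ} (hV : ∀ c ∈ V, (q : ℂ) / c ∈ V)
    (hV0 : ∀ c ∈ V, c ≠ 0) (h1 : ∀ c ∈ V, F.HasEigenvalue c)
    (hP : ∀ a ∈ V, ∀ b ∈ V, a * b = q → ∀ t u : H, F t = a • t → F u = b • u →
      (PiTensorProduct.tprod ℂ ![t, u] : ⨂[ℂ]^2 H) ∈ C 2)
    {Γ : ⨂[ℂ]^4 H} (hΓ : Γ ∈ C 4) {a : Fin 4 → ℂ} (ha : ∀ j, a j ∈ V)
    {φ : Fin 4 → H →ₗ[ℂ] ℂ} (hφ : ∀ j x, φ j (F x) = a j * φ j x) (hne : evalP φ Γ ≠ 0)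
    {t : Fin 4 → H} (ht : ∀ j, F (t j) = a j • t j) :
    (PiTensorProduct.tprod ℂ t : ⨂[ℂ]^4 H) ∈ C 4 := by
  have hr := fun (i : Fin 4) (Γ : ⨂[ℂ]^4 H) (h : Γ ∈ C 4) =>
    repl_mem hC hF hV hV0 h1 hP i (ha i) (hφ i) (ht i) h
  have h5 := hr 3 _ (hr 2 _ (hr 1 _ (hr 0 _ hΓ)))
  have key : (repl 4 3 (φ 3) (t 3)).comp ((repl 4 2 (φ 2) (t 2)).comp
      ((repl 4 1 (φ 1) (t 1)).comp (repl 4 0 (φ 0) (t 0)))) =
      LinearMap.smulRight (evalP φ) (PiTensorProduct.tprod ℂ t : ⨂[ℂ]^4 H) := by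
    refine PiTensorProduct.ext (MultilinearMap.ext fun w => ?_)
    simp only [LinearMap.compMultilinearMap_apply, LinearMap.comp_apply, repl_tprod, map_smul,
      LinearMap.smulRight_apply, evalP_tprod, Fin.prod_univ_four]
    have e1 : Function.update (Function.update (Function.update (Function.update w 0 (t 0)) 1
        (t 1)) 2 (t 2)) 3 (t 3) = t := by
      funext j
      fin_cases j <;> rfl
    rw [e1, smul_smul, smul_smul, smul_smul]
    congr 1
  have h6 := LinearMap.congr_fun key Γ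
  rw [LinearMap.comp_apply, LinearMap.comp_apply, LinearMap.comp_apply,
    LinearMap.smulRight_apply] at h6
  rw [h6] at h5
  exact ((C 4).smul_mem_iff hne).1 h5

/-- One full class suffices. -/
theorem hasBasics_of_full {N : ℕ} {C : ∀ n : ℕ, Submodule ℂ (TP H n)} (hC : IsStable F q C)
    (hF : ⨆ a, F.eigenspace a = ⊤) {V : Finset ℂ} (hV : ∀ c ∈ V, (q : ℂ) / c ∈ V)
    (hV0 : ∀ c ∈ V, c ≠ 0) (hs : rt q ∈ V) (h1 : ∀ c ∈ V, F.HasEigenvalue c)
    (hP : HasPairs F q V C) {Γ : TP H 4} (hΓ : Γ ∈ C 4) (hfull : IsFull F q N V Γ) :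
    HasBasics F q N V C where
  two := fun ha hb hab _ _ ht hu => hP ha hb hab ht hu
  four := by
    intro a b c ha hb hc hn habc t u v w ht hu hv hw
    obtain ⟨φ, hφ, hne⟩ := hfull a b c ha hb hc hn habc
    exact four_mem (C := (C : ∀ n : ℕ, Submodule ℂ (⨂[ℂ]^n H))) hC.toP hF hV hV0 h1
      (fun a ha b hb hab t u ht hu => hP ha hb hab ht hu) (Γ := Γ) hΓ
      (a := ![a, b, c, rt q]) (by
        intro j
        fin_cases j
        · exact ha
        · exact hb
        · exact hc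
        · exact hs) hφ hne (by
        intro j
        fin_cases j
        · exact ht
        · exact hu
        · exact hv
        · exact hw)

end MP_021685_agC2
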