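import Pool.Agent.Lib.MP_021685_agC2.WZ

set_option autoImplicit false

/-! One class: existence of full classes and the final theorem. -/

open scoped TensorProduct

namespace MP_021685_agC2

variable {H : Type*} [AddCommGroup H] [Module ℂ H] {F : Module.End ℂ H} {q : ℕ}

/-- `Γ` is in `H ⊗ H ⊗ H ⊗ H_s`, where `H_s` is the eigenspace for `s = √q` (the part of a
supersingular elliptic curve): it is a combination of tensors `t ⊗ u ⊗ v ⊗ w` with `F w = s w`. -/
def LastSupersingular (F : Module.End ℂ H) (q : ℕ) (Γ : TP H 4) : Prop :=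
  Γ ∈ Submodule.span ℂ {x : TP H 4 | ∃ t u v w : H, F w = rt q • w ∧ x = tens ![t, u, v, w]}

/-- Full Tate classes exist. -/
theorem exists_full (N : ℕ) {V : Finset ℂ} (hF : ⨆ a, F.eigenspace a = ⊤)
    (hs : rt q ∈ V) (h1 : ∀ c ∈ V, F.HasEigenvalue c) :
    ∃ Γ : TP H 4, frob F 4 Γ = (q : ℂ) ^ 2 • Γ ∧ LastSupersingular F q Γ ∧
      IsFull F q N V Γ := by
  classical
  have he : ∀ z : ℂ, ∃ (x : H) (φ : H →ₗ[ℂ] ℂ), z ∈ V → F x = z • x ∧ φ x ≠ 0 ∧
      ∀ y, φ (F y) = z * φ y := by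
    intro z
    by_cases hz : z ∈ V
    · obtain ⟨x, hx⟩ := (h1 z hz).exists_hasEigenvector
      obtain ⟨φ, h2, h3⟩ := exists_functional hF hx.2 hx.apply_eq_smul
      exact ⟨x, φ, fun _ => ⟨hx.apply_eq_smul, h2, h3⟩⟩
    · exact ⟨0, 0, fun h => absurd h hz⟩
  choose e φ he using he
  have h0 : ∀ z ∈ V, ∀ w ∈ V, z ≠ w → φ z (e w) = 0 := by
    intro z hz w hw hzw
    have h2 := (he z hz).2.2 (e w)
    rw [(he w hw).1, map_smul, smul_eq_mul] at h2
    by_contra hne
    exact hzw (mul_right_cancel₀ hne h2).symm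
  let S : Finset (ℂ × ℂ × ℂ) := (V ×ˢ V ×ˢ V).filter
    (fun t => t.1 * t.2.1 * t.2.2 * rt q = (q : ℂ) ^ 2)
  let f : ℂ × ℂ × ℂ → Fin 4 → H := fun t => ![e t.1, e t.2.1, e t.2.2, e (rt q)]
  let Γ : ⨂[ℂ]^4 H := ∑ t ∈ S, PiTensorProduct.tprod ℂ (f t)
  have hS : ∀ t ∈ S, t.1 ∈ V ∧ t.2.1 ∈ V ∧ t.2.2 ∈ V ∧
      t.1 * t.2.1 * t.2.2 * rt q = (q : ℂ) ^ 2 := by
    intro t ht
    have ht' := Finset.mem_filter.1 ht
    obtain ⟨h1, h2⟩ := Finset.mem_product.1 ht'.1
    obtain ⟨h3, h4⟩ := Finset.mem_product.1 h2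
    exact ⟨h1, h3, h4, ht'.2⟩
  have hfr : frobP F 4 Γ = (q : ℂ) ^ 2 • Γ := by
    show frobP F 4 (∑ t ∈ S, PiTensorProduct.tprod ℂ (f t)) =
      (q : ℂ) ^ 2 • ∑ t ∈ S, PiTensorProduct.tprod ℂ (f t)
    rw [map_sum, Finset.smul_sum]
    refine Finset.sum_congr rfl (fun t ht => ?_)
    obtain ⟨ha, hb, hc, habc⟩ := hS t ht
    rw [frobP, PiTensorProduct.map_tprod]
    have h2 : (fun j => F (f t j)) = fun j =>
        (![t.1, t.2.1, t.2.2, rt q] : Fin 4 → ℂ) j • f t j := by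
      funext j
      fin_cases j
      · exact (he _ ha).1
      · exact (he _ hb).1
      · exact (he _ hc).1
      · exact (he _ hs).1
    rw [h2, MultilinearMap.map_smul_univ, Fin.prod_univ_four]
    congr 1
  have hspan : (Γ : TP H 4) ∈ Submodule.span ℂ {x : TP H 4 | ∃ t u v w : H,
      F w = rt q • w ∧ x = tens ![t, u, v, w]} := by
    refine Submodule.sum_mem (Submodule.span ℂ {x : TP H 4 | ∃ t u v w : H,
      F w = rt q • w ∧ x = tens ![t, u, v, w]}) (fun t ht => Submodule.subset_span ?_)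
    exact ⟨e t.1, e t.2.1, e t.2.2, e (rt q), (he _ hs).1, rfl⟩
  refine ⟨Γ, hfr, hspan, ?_⟩
  intro a b c ha hb hc _ habc
  refine ⟨![φ a, φ b, φ c, φ (rt q)], ?_, ?_⟩
  · intro j x
    fin_cases j
    · exact (he _ ha).2.2 x
    · exact (he _ hb).2.2 x
    · exact (he _ hc).2.2 x
    · exact (he _ hs).2.2 x
  · show evalP ![φ a, φ b, φ c, φ (rt q)] (∑ t ∈ S, PiTensorProduct.tprod ℂ (f t)) ≠ 0
    rw [map_sum, Finset.sum_eq_single (a, b, c)]
    · rw [evalP_tprod, Fin.prod_univ_four]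
      show φ a (e a) * φ b (e b) * φ c (e c) * φ (rt q) (e (rt q)) ≠ 0
      exact mul_ne_zero (mul_ne_zero (mul_ne_zero (he _ ha).2.1 (he _ hb).2.1) (he _ hc).2.1)
        (he _ hs).2.1
    · rintro ⟨a', b', c'⟩ ht hne
      obtain ⟨ha', hb', hc', -⟩ := hS _ ht
      rw [evalP_tprod, Fin.prod_univ_four]
      show φ a (e a') * φ b (e b') * φ c (e c') * φ (rt q) (e (rt q)) = 0
      by_cases h2 : a = a'
      · by_cases h3 : b = b'
        · by_cases h4 : c = c'
          · exact absurd (by rw [h2, h3, h4]) hne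
          · rw [h0 c hc c' hc' h4]
            ring
        · rw [h0 b hb b' hb' h3]
          ring
      · rw [h0 a ha a' ha' h2]
        ring
    · intro h
      exfalso
      apply h
      exact Finset.mem_filter.2 ⟨Finset.mem_product.2 ⟨ha, Finset.mem_product.2 ⟨hb, hc⟩⟩, habc⟩

/-- **Theorem.** For every finite set `W` of Weil numbers of positive weights there is a finite set
`V` of Weil numbers of weight one such that the pairs over `V`, one full class of degree four and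
the links between `W` and `V` generate all the Tate tensors over `W`. -/
theorem final_one {q : ℕ} (hq : 1 < q) (N : ℕ) (W : Finset ℂ)
    (hW : ∀ a ∈ W, ∃ w, 0 < w ∧ IsWeilOf q w a) :
    ∃ V : Finset ℂ, (∀ c ∈ V, IsWeilOf q 1 c) ∧
      ∀ (H : Type*) [AddCommGroup H] [Module ℂ H] (F : Module.End ℂ H),
        (⨆ a, F.eigenspace a = ⊤) → (∀ c ∈ V, F.HasEigenvalue c) →
        (∃ Γ : TP H 4, frob F 4 Γ = (q : ℂ) ^ 2 • Γ ∧ LastSupersingular F q Γ ∧
          IsFull F q N V Γ) ∧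
        ∀ C : ∀ n : ℕ, Submodule ℂ (TP H n), IsStable F q C → HasPairs F q V C →
          (∃ Γ ∈ C 4, IsFull F q N V Γ) → HasLinks F q W V C →
          ∀ n d : ℕ, ∀ t ∈ Over F W n, frob F n t = (q : ℂ) ^ d • t → t ∈ C n := by
  classical
  have hq0 : 0 < q := by omega
  obtain ⟨V, wt, l, D⟩ := exists_data hq N W hW
  have hV : ∀ c ∈ insert (rt q) V, IsWeilOf q 1 c := by
    intro c hc
    rcases Finset.mem_insert.1 hc with rfl | hc
    · exact isWeilOf_one.2 (isWeil_rt q)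
    · exact D.weil c hc
  refine ⟨insert (rt q) V, hV, ?_⟩
  intro H _ _ F hF h1
  have hs : rt q ∈ insert (rt q) V := Finset.mem_insert_self _ _
  refine ⟨exists_full N hF hs h1, ?_⟩
  intro C hC hP hΓ hL n d t htW ht
  obtain ⟨Γ, hΓC, hfull⟩ := hΓ
  have hB : HasBasics F q N (insert (rt q) V) C := by
    refine hasBasics_of_full hC hF ?_ (fun c hc => (isWeilOf_one.1 (hV c hc)).ne_zero hq0) hs h1
      hP hΓC hfull
    intro c hc
    rcases Finset.mem_insert.1 hc with rfl | hc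
    · rw [div_rt hq0]
      exact hs
    · exact Finset.mem_insert_of_mem (D.dual c hc)
  have hB' : HasBasics F q N V C :=
    ⟨fun ha hb => hB.two (Finset.mem_insert_of_mem ha) (Finset.mem_insert_of_mem hb),
      fun ha hb hc => hB.four (Finset.mem_insert_of_mem ha) (Finset.mem_insert_of_mem hb)
        (Finset.mem_insert_of_mem hc)⟩
  have hL' : HasLinks F q W V C := fun w a c ha haw hc =>
    hL w a c ha haw (Finset.mem_insert_of_mem hc)
  have h2 := mem_span_of_over (F := F) (W := W) (n := n) (t := t) htW ht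
  refine (Submodule.span_le (p := (C n : Submodule ℂ (⨂[ℂ]^n H)))).2 ?_ h2
  rintro _ ⟨v, a, hv, ha, rfl⟩
  exact pure_mem hq D hF (fun c hc => h1 c (Finset.mem_insert_of_mem hc)) hC hB' hL'
    (fun j => (hv j).2) (fun j => (hv j).1) ha

end MP_021685_agC2
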